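import Pool.Agent.Lib.MP_5854e1_co.K7S.LocH

/-!
# The local part
-/

set_option autoImplicit false

open Equiv Equiv.Perm Relation

namespace Pool.Agent.Lib.MP_5854e1_co.K7S

open Crc

/-- there is no minimal side -/
theorem Side.false {D : Type*} [Fintype D] {M : CMap D} {lab : D → Fin 7 × Fin 7} {e : D}
    (h : Side M lab e) : False := h.contra

end Pool.Agent.Lib.MP_5854e1_co.K7S
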