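import Pool.Agent.Lib.MP_5854e1_co.K7S.Circ
import Pool.Agent.Lib.MP_5854e1_co.K7S.Loc

/-!
# `K_7 - C_4` has no finite planar cover
-/

set_option autoImplicit false

namespace Pool.Agent.Lib.MP_5854e1_co

/-- `K_7 - C_4` has no finite planar cover. -/
theorem K7C4_noPlanarCover : ¬ HasPlanarCover K7C4 := by
  intro h
  obtain ⟨D, _, M, lab, e, hs⟩ := K7S.exists_side h
  exact hs.false

end Pool.Agent.Lib.MP_5854e1_co
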