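import Pool.Agent.Lib.MP_5854e1_co.K7S.Defs

/-!
# Circles over a triangle

In a map labelled like a cover of `K_7 - C_4` the darts with both labels in a triangle form disjoint
circles; contracting one of them gives a `OneCircle`.
-/

set_option autoImplicit false

open Equiv Equiv.Perm Relation

namespace Pool.Agent.Lib.MP_5854e1_co.K7S

open Crc

/-- a map labelled like a cover of `K_7 - C_4` -/
structure Bs (D : Type*) where
  /-- next dart at the vertex -/
  rot : Perm D
  /-- the other dart of the edge -/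
  inv : Perm D
  /-- the labels of tail and head -/
  lab : D → Fin 7 × Fin 7
  inv_inv : ∀ x, inv (inv x) = x
  inv_ne : ∀ x, inv x ≠ x
  lab_inv : ∀ d, lab (inv d) = (lab d).swap
  adj : ∀ d, K7C4.Adj (lab d).1 (lab d).2
  src : ∀ d, (lab (rot d)).1 = (lab d).1
  inj : ∀ d d', rot.SameCycle d d' → (lab d).2 = (lab d').2 → d = d'
  surj : ∀ d j, K7C4.Adj (lab d).1 j → ∃ d', rot.SameCycle d d' ∧ (lab d').2 = j

/-- `S` is a triangle -/
def Tri (S : Fin 7 → Prop) : Prop := ∃ p q r : Fin 7, p ≠ q ∧ q ≠ r ∧ p ≠ r ∧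
  K7C4.Adj p q ∧ K7C4.Adj q r ∧ K7C4.Adj p r ∧ ∀ i, S i ↔ i = p ∨ i = q ∨ i = r

/-- the third label of a triangle -/
theorem Tri.third {S : Fin 7 → Prop} (hS : Tri S) {i j : Fin 7} (hi : S i) (hj : S j)
    (hij : i ≠ j) : ∃ w, S w ∧ w ≠ i ∧ w ≠ j ∧ K7C4.Adj i w ∧
      ∀ k, S k → k ≠ i → k = j ∨ k = w := by
  obtain ⟨p, q, r, h1, h2, h3, h4, h5, h6, h⟩ := hS
  have s4 := h4.symm
  have s5 := h5.symm
  have s6 := h6.symm
  rw [h] at hi hj
  rcases hi with rfl | rfl | rfl <;> rcases hj with rfl | rfl | rfl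
  · exact absurd rfl hij
  · exact ⟨r, (h r).2 (by simp), h3.symm, h2.symm, h6, fun k hk hk' => by
      rcases (h k).1 hk with e | e | e
      · exact absurd e hk'
      · exact Or.inl e
      · exact Or.inr e⟩
  · exact ⟨q, (h q).2 (by simp), h1.symm, h2, h4, fun k hk hk' => by
      rcases (h k).1 hk with e | e | e
      · exact absurd e hk'
      · exact Or.inr e
      · exact Or.inl e⟩
  · exact ⟨r, (h r).2 (by simp), h2.symm, h3.symm, h5, fun k hk hk' => by
      rcases (h k).1 hk with e | e | e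
      · exact Or.inl e
      · exact absurd e hk'
      · exact Or.inr e⟩
  · exact absurd rfl hij
  · exact ⟨p, (h p).2 (by simp), h1, h3, s4, fun k hk hk' => by
      rcases (h k).1 hk with e | e | e
      · exact Or.inr e
      · exact absurd e hk'
      · exact Or.inl e⟩
  · exact ⟨q, (h q).2 (by simp), h2, h1.symm, s5, fun k hk hk' => by
      rcases (h k).1 hk with e | e | e
      · exact Or.inl e
      · exact Or.inr e
      · exact absurd e hk'⟩
  · exact ⟨p, (h p).2 (by simp), h3, h1, s6, fun k hk hk' => by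
      rcases (h k).1 hk with e | e | e
      · exact Or.inr e
      · exact Or.inl e
      · exact absurd e hk'⟩
  · exact absurd rfl hij

/-- the cyclic direction -/
theorem Tri.dir {S : Fin 7 → Prop} (hS : Tri S) : ∃ d : Fin 7 → Fin 7 → Prop,
    (∀ i j, S i → S j → i ≠ j → (d i j ↔ ¬ d j i)) ∧
    ∀ i j k, S i → S j → S k → i ≠ j → j ≠ k → i ≠ k → (d i j ↔ d j k) := by
  obtain ⟨p, q, r, h1, h2, h3, -, -, -, h⟩ := hS
  refine ⟨fun i j => (i = p ∧ j = q) ∨ (i = q ∧ j = r) ∨ (i = r ∧ j = p), ?_, ?_⟩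
  · intro i j hi hj hij
    rw [h] at hi hj
    rcases hi with rfl | rfl | rfl <;> rcases hj with rfl | rfl | rfl <;>
      simp_all [ne_comm]
  · intro i j k hi hj hk hij hjk hik
    rw [h] at hi hj hk
    rcases hi with rfl | rfl | rfl <;> rcases hj with rfl | rfl | rfl <;>
      rcases hk with rfl | rfl | rfl <;> simp_all [ne_comm]

namespace Bs

variable {D : Type*} (B : Bs D) (S : Fin 7 → Prop)

/-- both labels lie in `S` -/
def On (x : D) : Prop := S (B.lab x).1 ∧ S (B.lab x).2

/-- the relation generating the circles over `S` -/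
def stp (a b : D) : Prop := B.On S a ∧ B.On S b ∧ (B.inv a = b ∨ B.rot.SameCycle a b)

/-- the circle of `e` -/
def Ci (e x : D) : Prop := B.On S x ∧ EqvGen (B.stp S) e x

theorem on_inv {x : D} : B.On S (B.inv x) ↔ B.On S x := by
  unfold On
  rw [B.lab_inv]
  exact and_comm

theorem ci_inv {e x : D} : B.Ci S e (B.inv x) ↔ B.Ci S e x := by
  unfold Ci
  rw [on_inv]
  refine and_congr_right fun h => ?_
  have : EqvGen (B.stp S) x (B.inv x) := EqvGen.rel _ _ ⟨h, (B.on_inv S).2 h, Or.inl rfl⟩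
  exact ⟨fun h' => h'.trans _ _ _ (this.symm _ _), fun h' => h'.trans _ _ _ this⟩

variable {S} in
theorem Ci.congr {e f x : D} (h : EqvGen (B.stp S) e f) : B.Ci S e x ↔ B.Ci S f x :=
  and_congr_right fun _ =>
    ⟨fun h' => (h.symm _ _).trans _ _ _ h', fun h' => h.trans _ _ _ h'⟩

/-- the map with the circle of `e` contracted -/
def cmap (e : D) : CMap D where
  rot := B.rot
  inv := B.inv
  F := B.Ci S e
  c := B.Ci S e
  inv_inv := B.inv_inv
  inv_ne := B.inv_ne
  F_inv := fun _ => B.ci_inv S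
  c_inv := fun _ => B.ci_inv S
  c_F := fun _ h => h

theorem cmap_congr {e f : D} (h : EqvGen (B.stp S) e f) : B.cmap S e = B.cmap S f := by
  have : B.Ci S e = B.Ci S f := funext fun _ => propext (Ci.congr B h)
  unfold cmap
  simp only [this]

theorem src_same {x y : D} (h : B.rot.SameCycle x y) [Finite D] : (B.lab y).1 = (B.lab x).1 := by
  obtain ⟨i, -, rfl⟩ := sameCycle_iterate B.rot h
  clear h
  induction i with
  | zero => rfl
  | succ i ih => rw [Function.iterate_succ_apply', B.src, ih]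

variable {S}

theorem ci_self {e : D} (he : B.On S e) : B.Ci S e e := ⟨he, EqvGen.refl _⟩

/-- the other dart of the circle at the same vertex -/
theorem mate [Finite D] (hS : Tri S) {e a : D} (ha : B.Ci S e a) :
    ∃ b, B.rot.SameCycle a b ∧ b ≠ a ∧ B.Ci S e b ∧
      (B.lab b).2 ≠ (B.lab a).1 ∧ (B.lab b).2 ≠ (B.lab a).2 ∧
      ∀ z, B.rot.SameCycle a z → B.Ci S e z → z = a ∨ z = b := by
  have hne : (B.lab a).1 ≠ (B.lab a).2 := (B.adj a).ne
  obtain ⟨w, hw, hwi, hwj, hadj, hk⟩ := hS.third ha.1.1 ha.1.2 hne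
  obtain ⟨b, hab, hb⟩ := B.surj a w hadj
  have hbOn : B.On S b := ⟨by rw [B.src_same hab]; exact ha.1.1, by rw [hb]; exact hw⟩
  refine ⟨b, hab, ?_, ⟨hbOn, ha.2.trans _ _ _ (EqvGen.rel _ _ ⟨ha.1, hbOn, Or.inr hab⟩)⟩,
    by rw [hb]; exact hwi, by rw [hb]; exact hwj, ?_⟩
  · rintro rfl
    exact hwj hb.symm
  · intro z haz hz
    have h1 : (B.lab z).2 ≠ (B.lab a).1 := by
      rw [← B.src_same haz]
      exact (B.adj z).ne'
    rcases hk _ hz.1.2 h1 with h | h
    · exact Or.inl (B.inj _ _ haz h.symm).symm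
    · exact Or.inr (B.inj _ _ (haz.symm.trans hab) (h.trans hb.symm))

/-- the contour from the dart `inv a` reaches the other dart of the circle at its head -/
theorem th_mate [Finite D] {e a b : D} (ha : B.Ci S e a)
    (hab : B.rot.SameCycle a b) (hne : b ≠ a)
    (hu : ∀ z, B.rot.SameCycle a z → B.Ci S e z → z = a ∨ z = b) :
    (B.cmap S e).th.SameCycle (B.inv a) b := by
  obtain ⟨i, hi, hib⟩ := sameCycle_iterate B.rot hab
  have hi0 : i ≠ 0 := by
    rintro rfl
    exact hne hib.symm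
  have key : ∀ j, j < i → (B.cmap S e).th^[j + 1] (B.inv a) = B.rot^[j + 1] a := by
    intro j
    induction j with
    | zero =>
      intro _
      show (B.cmap S e).th (B.inv a) = B.rot a
      rw [(B.cmap S e).th_F ((B.ci_inv S).2 ha)]
      show B.rot (B.inv (B.inv a)) = B.rot a
      rw [B.inv_inv]
    | succ j ih =>
      intro hj
      rw [Function.iterate_succ_apply', ih (by omega), Function.iterate_succ_apply' B.rot (j + 1)]
      refine (B.cmap S e).th_nF fun hF => ?_
      have hF' : B.Ci S e (B.rot^[j + 1] a) := hF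
      have hs : B.rot.SameCycle a (B.rot^[j + 1] a) :=
        ⟨(j + 1 : ℕ), by rw [zpow_natCast, Equiv.Perm.coe_pow]⟩
      have hinj := Function.iterate_injOn_Iio_minimalPeriod (f := B.rot) (x := a)
      rcases hu _ hs hF' with h | h
      · have := hinj (show j + 1 ∈ Set.Iio _ from by simp; omega)
          (show 0 ∈ Set.Iio _ from by simp; omega) h
        omega
      · rw [← hib] at h
        have := hinj (show j + 1 ∈ Set.Iio _ from by simp; omega)
          (show i ∈ Set.Iio _ from hi) h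
        omega
  obtain ⟨j, rfl⟩ := Nat.exists_eq_succ_of_ne_zero hi0
  refine ⟨(j + 1 : ℕ), ?_⟩
  rw [zpow_natCast, Equiv.Perm.coe_pow, key j (by omega)]
  exact hib

/-- the two contours -/
theorem two [Finite D] (hS : Tri S) {e x : D} (hx : B.Ci S e x) :
    (B.cmap S e).th.SameCycle e x ∨ (B.cmap S e).th.SameCycle (B.inv e) x := by
  set th := (B.cmap S e).th with hth
  set P : D → D → Prop := fun x y => (th.SameCycle x y ∧ th.SameCycle (B.inv x) (B.inv y)) ∨
    (th.SameCycle x (B.inv y) ∧ th.SameCycle (B.inv x) y) with hP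
  have hrefl : ∀ x, P x x := fun x => Or.inl ⟨SameCycle.refl _ _, SameCycle.refl _ _⟩
  have hsymm : ∀ x y, P x y → P y x := by
    rintro x y (⟨h1, h2⟩ | ⟨h1, h2⟩)
    · exact Or.inl ⟨h1.symm, h2.symm⟩
    · exact Or.inr ⟨h2.symm, h1.symm⟩
  have htrans : ∀ x y z, P x y → P y z → P x z := by
    rintro x y z (⟨h1, h2⟩ | ⟨h1, h2⟩) (⟨h3, h4⟩ | ⟨h3, h4⟩)
    · exact Or.inl ⟨h1.trans h3, h2.trans h4⟩
    · exact Or.inr ⟨h1.trans h3, h2.trans h4⟩
    · exact Or.inr ⟨h1.trans h4, h2.trans h3⟩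
    · exact Or.inl ⟨h1.trans h4, h2.trans h3⟩
  have key : ∀ x y, EqvGen (B.stp S) x y → (EqvGen (B.stp S) e x → P x y) := by
    intro x y h
    induction h with
    | rel a b hab =>
      intro hea
      obtain ⟨ha, hb, hab'⟩ := hab
      have hca : B.Ci S e a := ⟨ha, hea⟩
      have hcb : B.Ci S e b := ⟨hb, hea.trans _ _ _ (EqvGen.rel _ _ ⟨ha, hb, hab'⟩)⟩
      rcases hab' with rfl | hab'
      · right
        rw [B.inv_inv]
        exact ⟨SameCycle.refl _ _, SameCycle.refl _ _⟩
      · by_cases hne : b = a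
        · rw [hne]
          exact hrefl a
        · right
          obtain ⟨b', h1, h2, -, -, -, h3⟩ := B.mate hS hca
          have hbb : b = b' := (h3 b hab' hcb).resolve_left hne
          obtain ⟨a', k1, k2, -, -, -, k3⟩ := B.mate hS hcb
          have haa : a = a' := (k3 a hab'.symm hca).resolve_left (fun h => hne h.symm)
          subst hbb haa
          exact ⟨(B.th_mate hcb k1 k2 k3).symm, B.th_mate hca h1 h2 h3⟩
    | refl x => exact fun _ => hrefl x
    | symm x y hxy ih => exact fun h => hsymm _ _ (ih (h.trans _ _ _ (hxy.symm _ _)))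
    | trans x y z hxy _ ih1 ih2 =>
      exact fun h => htrans _ _ _ (ih1 h) (ih2 (h.trans _ _ _ hxy))
  rcases key e x hx.2 (EqvGen.refl _) with ⟨h, -⟩ | ⟨-, h⟩
  · exact Or.inl h
  · exact Or.inr h

/-- the two contours are different: a contour keeps the cyclic direction -/
theorem th_ne [Finite D] (hS : Tri S) {e : D} (he : B.On S e) :
    ¬ (B.cmap S e).th.SameCycle e (B.inv e) := by
  obtain ⟨d, hd1, hd2⟩ := hS.dir
  set th := (B.cmap S e).th with hth
  set dd : D → Prop := fun x => d (B.lab x).1 (B.lab x).2 with hdd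
  set Inv : D → Prop := fun z => ∃ a i, B.Ci S e a ∧ (dd (B.inv a) ↔ dd e) ∧ 1 ≤ i ∧
    B.rot^[i] a = z ∧ ∀ j, 1 ≤ j → j < i → ¬ B.Ci S e (B.rot^[j] a) with hInv
  have hA : ∀ z, Inv z → B.Ci S e z → (dd z ↔ dd e) := by
    rintro z ⟨a, i, ha, hda, hi, rfl, hj⟩ hz
    obtain ⟨b, hab, hne, hcb, hl1, hl2, hu⟩ := B.mate hS ha
    obtain ⟨m, hm, hmb⟩ := sameCycle_iterate B.rot hab
    have hm0 : m ≠ 0 := by
      rintro rfl
      exact hne hmb.symm
    have hs : B.rot.SameCycle a (B.rot^[i] a) := ⟨(i : ℕ), by rw [zpow_natCast, Equiv.Perm.coe_pow]⟩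
    have hzb : B.rot^[i] a = b := by
      refine (hu _ hs hz).resolve_left fun h => ?_
      have hper : Function.IsPeriodicPt B.rot i a := h
      have hle := hper.minimalPeriod_le (by omega)
      exact hj m (by omega) (by omega) (hmb ▸ hcb)
    rw [← hda, hzb]
    have e1 : (B.lab (B.inv a)) = ((B.lab a).2, (B.lab a).1) := by rw [B.lab_inv]; rfl
    show d (B.lab b).1 (B.lab b).2 ↔ d (B.lab (B.inv a)).1 (B.lab (B.inv a)).2
    rw [e1, B.src_same hab]
    refine (hd2 _ _ _ ha.1.2 ha.1.1 hcb.1.2 (B.adj a).ne' ?_ ?_).symm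
    · exact fun h => hl1 h.symm
    · exact fun h => hl2 h.symm
  have hB : ∀ z, Inv z → Inv (th z) := by
    intro z hz
    by_cases hc : B.Ci S e z
    · refine ⟨B.inv z, 1, (B.ci_inv S).2 hc, ?_, le_rfl, ?_, fun j h1 h2 => by omega⟩
      · rw [B.inv_inv]
        exact hA z hz hc
      · exact ((B.cmap S e).th_F hc).symm
    · obtain ⟨a, i, ha, hda, hi, rfl, hj⟩ := hz
      refine ⟨a, i + 1, ha, hda, by omega, ?_, ?_⟩
      · rw [Function.iterate_succ_apply']
        exact ((B.cmap S e).th_nF hc).symm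
      · intro j h1 h2
        rcases Nat.lt_succ_iff_lt_or_eq.1 h2 with h | rfl
        · exact hj j h1 h
        · exact hc
  have h1 : Inv (th e) := by
    refine ⟨B.inv e, 1, (B.ci_inv S).2 (B.ci_self he), by rw [B.inv_inv], le_rfl, ?_,
      fun j h1 h2 => by omega⟩
    exact ((B.cmap S e).th_F (B.ci_self he)).symm
  have h2 : ∀ n, Inv (th^[n + 1] e) := by
    intro n
    induction n with
    | zero => exact h1
    | succ n ih =>
      rw [Function.iterate_succ_apply']
      exact hB _ ih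
  intro hsc
  obtain ⟨i, hi, hie⟩ := sameCycle_iterate th hsc
  have hi0 : i ≠ 0 := by
    rintro rfl
    exact B.inv_ne e hie.symm
  obtain ⟨n, rfl⟩ := Nat.exists_eq_succ_of_ne_zero hi0
  have h3 := h2 n
  rw [show th^[n + 1] e = B.inv e from hie] at h3
  have h4 := hA _ h3 ((B.ci_inv S).2 (B.ci_self he))
  have e1 : (B.lab (B.inv e)) = ((B.lab e).2, (B.lab e).1) := by rw [B.lab_inv]; rfl
  have h5 : d (B.lab (B.inv e)).1 (B.lab (B.inv e)).2 ↔ d (B.lab e).1 (B.lab e).2 := h4
  rw [e1] at h5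
  have h6 := hd1 _ _ he.1 he.2 (B.adj e).ne
  tauto

/-- the circle of `e` is a circle -/
theorem oneCircle [Finite D] (hS : Tri S) {e : D} (he : B.On S e) : OneCircle (B.cmap S e) e where
  Fc := fun _ => Iff.rfl
  he := B.ci_self he
  two := fun _ hx => B.two hS hx
  ne := B.th_ne hS he
  deg := fun x hx => by
    obtain ⟨y, h1, h2, h3, -, -, h4⟩ := B.mate hS hx
    exact ⟨y, h1, h2, h3, h4⟩

end Bs

end Pool.Agent.Lib.MP_5854e1_co.K7S
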