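import Pool.Agent.Lib.MP_5854e1_co.K7S.Nest
import Pool.Agent.Lib.MP_5854e1_co.K7S.CircA
import Pool.Agent.Lib.MP_5854e1_co.MnrP

/-!
# The minimal side of a planar cover of `K_7 - C_4`

Among all circles over the six triangles `{p, c, c'}` (`p < 3`, `{c, c'} = {3, 4}` or `{5, 6}`) and
their sides which are not faces take the smallest one, and relabel such that its triangle is
`{0, 3, 4}`.
-/

set_option autoImplicit false

open Equiv Equiv.Perm Relation

namespace Pool.Agent.Lib.MP_5854e1_co.K7S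

open Crc

theorem tri_T0 : Tri T0 := ⟨0, 3, 4, by decide, by decide, by decide, by decide, by decide,
  by decide, fun _ => Iff.rfl⟩

/-- an automorphism of `K_7 - C_4` -/
def IsAut (σ : Perm (Fin 7)) : Prop := ∀ i j, K7C4.Adj (σ i) (σ j) ↔ K7C4.Adj i j

instance (σ : Perm (Fin 7)) : Decidable (IsAut σ) := by unfold IsAut; infer_instance

/-- maps `1 5 6` to `0 3 4` -/
def τ1 : Perm (Fin 7) := swap 0 1 * (swap 3 5 * swap 4 6)

/-- maps `2 5 6` to `0 3 4` -/
def τ2 : Perm (Fin 7) := swap 0 2 * (swap 3 5 * swap 4 6)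

theorem aut_one : IsAut 1 := fun _ _ => Iff.rfl

theorem aut_τ1 : IsAut τ1 := by decide

theorem aut_τ2 : IsAut τ2 := by decide

theorem IsAut.mul {σ τ : Perm (Fin 7)} (hσ : IsAut σ) (hτ : IsAut τ) : IsAut (σ * τ) :=
  fun i j => (hσ _ _).trans (hτ i j)

theorem T0_τ1 : ∀ i, T0 (τ1 i) ↔ T1 i := by decide

theorem T0_τ2 : ∀ i, T0 (τ2 i) ↔ T2 i := by decide

theorem T0_T1 : ∀ i, T0 i → ¬ T1 i := by decide

theorem T0_T2 : ∀ i, T0 i → ¬ T2 i := by decide

namespace Bs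

variable {D : Type*}

/-- relabelling -/
def rel (B : Bs D) {σ : Perm (Fin 7)} (hσ : IsAut σ) : Bs D where
  rot := B.rot
  inv := B.inv
  lab := fun d => (σ (B.lab d).1, σ (B.lab d).2)
  inv_inv := B.inv_inv
  inv_ne := B.inv_ne
  lab_inv := fun d => by rw [B.lab_inv]; rfl
  adj := fun d => (hσ _ _).2 (B.adj d)
  src := fun d => by rw [B.src]
  inj := fun d d' h h' => B.inj d d' h (σ.injective h')
  surj := fun d j hj => by
    have h1 : K7C4.Adj (B.lab d).1 (σ.symm j) := by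
      rw [← hσ, Equiv.apply_symm_apply]
      exact hj
    obtain ⟨d', h2, h3⟩ := B.surj d _ h1
    exact ⟨d', h2, by show σ (B.lab d').2 = j; rw [h3, Equiv.apply_symm_apply]⟩

variable [Fintype D] (B : Bs D)

/-- a circle over the triangle with a side that is not a face -/
def Cand {σ : Perm (Fin 7)} (hσ : IsAut σ) (e : D) : Prop := (B.rel hσ).On T0 e ∧
  ∃ x, EqvGen ((B.rel hσ).cmap T0 e).rel e x ∧ ¬ (B.rel hσ).Ci T0 e x

theorem exists_cand (d0 : D) (h0 : (B.lab d0).1 = 0) : ∃ e, B.Cand aut_one e := by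
  obtain ⟨d, hd, hd2⟩ := B.surj d0 3 (by rw [h0]; decide)
  have hd1 : (B.lab d).1 = 0 := (B.src_same hd).trans h0
  obtain ⟨g, hg, hg2⟩ := B.surj d 1 (by rw [hd1]; decide)
  obtain ⟨a, ha, ha1, ha2⟩ : ∃ a, B.rot.SameCycle d a ∧ T0 (B.lab a).2 ∧
      ¬ T0 (B.lab (B.rot a)).2 := by
    by_contra hno
    push Not at hno
    have key : ∀ i, T0 (B.lab (B.rot^[i] d)).2 := by
      intro i
      induction i with
      | zero =>
        show T0 (B.lab d).2
        rw [hd2]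
        decide
      | succ i ih =>
        rw [Function.iterate_succ_apply']
        exact hno _ ⟨(i : ℕ), by rw [zpow_natCast, Equiv.Perm.coe_pow]⟩ ih
    obtain ⟨i, -, hi⟩ := sameCycle_iterate B.rot hg
    have := key i
    rw [hi, hg2] at this
    exact absurd this (by decide)
  have haon : (B.rel aut_one).On T0 a := by
    refine ⟨?_, ha1⟩
    show T0 (B.lab a).1
    rw [B.src_same ha, hd1]
    decide
  have hiaon : (B.rel aut_one).On T0 (B.inv a) := ((B.rel aut_one).on_inv T0).2 haon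
  refine ⟨B.inv a, hiaon, B.rot a, EqvGen.rel _ _ (Or.inl ?_), fun h => ha2 h.1.2⟩
  rw [CMap.th_F _ (show ((B.rel aut_one).cmap T0 (B.inv a)).F (B.inv a) from
    (B.rel aut_one).ci_self hiaon)]
  show B.rot (B.inv (B.inv a)) = B.rot a
  rw [B.inv_inv]

/-- the number of darts of the side -/
noncomputable def sz {σ : Perm (Fin 7)} (hσ : IsAut σ) (e : D) : ℕ :=
  Nat.card {x // EqvGen ((B.rel hσ).cmap T0 e).rel e x}

theorem exists_min (d0 : D) (h0 : (B.lab d0).1 = 0) :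
    ∃ (σ : Perm (Fin 7)) (hσ : IsAut σ) (e : D), B.Cand hσ e ∧
      ∀ (τ : Perm (Fin 7)) (hτ : IsAut τ) (f : D), B.Cand hτ f → B.sz hσ e ≤ B.sz hτ f := by
  classical
  have hex : ∃ n, ∃ (σ : Perm (Fin 7)) (hσ : IsAut σ) (e : D), B.Cand hσ e ∧ B.sz hσ e = n := by
    obtain ⟨e, he⟩ := B.exists_cand d0 h0
    exact ⟨_, 1, aut_one, e, he, rfl⟩
  obtain ⟨σ, hσ, e, he, hn⟩ := Nat.find_spec hex
  refine ⟨σ, hσ, e, he, fun τ hτ f hf => ?_⟩
  rw [hn]
  exact Nat.find_min' hex ⟨τ, hτ, f, hf, rfl⟩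

/-- in the minimal side all disjoint circles are faces -/
theorem key [DecidableEq D] (hpl : defect B.rot B.inv = 0) {σ : Perm (Fin 7)} {hσ : IsAut σ}
    {e : D} (he : B.Cand hσ e)
    (hmin : ∀ (τ : Perm (Fin 7)) (hτ : IsAut τ) (f : D), B.Cand hτ f → B.sz hσ e ≤ B.sz hτ f)
    {τ : Perm (Fin 7)} (hτ : IsAut τ) {x : D} (hx : (B.rel hτ).On T0 x)
    (hdis : ∀ y z, (B.rel hσ).Ci T0 e y → (B.rel hτ).Ci T0 x z → ¬ B.rot.SameCycle y z)
    (hex : EqvGen ((B.rel hσ).cmap T0 e).rel e x) :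
    ∃ f, (f = x ∨ f = B.inv x) ∧ ∀ y, B.rot.SameCycle f f → (B.rot * B.inv).SameCycle f y →
      (B.rel hτ).Ci T0 x y := by
  obtain ⟨f, hf, hsub, hnot⟩ := nest (M := (B.rel hσ).cmap T0 e) (M' := (B.rel hτ).cmap T0 x)
    rfl rfl ((B.rel hσ).oneCircle tri_T0 he.1) ((B.rel hτ).oneCircle tri_T0 hx) hdis hpl hex
  refine ⟨f, hf, fun y _ hy => ?_⟩
  have hxf : EqvGen ((B.rel hτ).stp T0) x f := by
    rcases hf with rfl | rfl
    · exact EqvGen.refl _
    · exact EqvGen.rel _ _ ⟨hx, ((B.rel hτ).on_inv T0).2 hx, Or.inl rfl⟩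
  have hcm : (B.rel hτ).cmap T0 x = (B.rel hτ).cmap T0 f := (B.rel hτ).cmap_congr T0 hxf
  have hfy : EqvGen ((B.rel hτ).cmap T0 x).rel f y := by
    set M' := (B.rel hτ).cmap T0 x with hM'
    refine (inv_same (σ := M'.fc) (R := fun z => EqvGen M'.rel f z) (fun z => ?_) hy).1
      (EqvGen.refl _)
    have h1 : EqvGen M'.rel z (M'.ga z) := EqvGen.rel _ _ (Or.inr rfl)
    have h2 : EqvGen M'.rel (M'.ga z) (M'.fc z) := EqvGen.rel _ _ (Or.inl (M'.th_ga z))
    have h3 := h1.trans _ _ _ h2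
    exact ⟨fun h => h.trans _ _ _ (h3.symm _ _), fun h => h.trans _ _ _ h3⟩
  by_contra hc
  have hfon : (B.rel hτ).On T0 f := by
    rcases hf with rfl | rfl
    · exact hx
    · exact ((B.rel hτ).on_inv T0).2 hx
  have hcand : B.Cand hτ f := ⟨hfon, y, by rw [← hcm]; exact hfy, fun h =>
    hc ((Ci.congr (B.rel hτ) hxf).2 h)⟩
  have h1 := hmin τ hτ f hcand
  have h2 : B.sz hτ f < B.sz hσ e := by
    unfold sz
    rw [← hcm]
    have hss : {z | EqvGen ((B.rel hτ).cmap T0 x).rel f z} ⊂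
        {z | EqvGen ((B.rel hσ).cmap T0 e).rel e z} := by
      refine ⟨fun z hz => hsub z hz, fun h => ?_⟩
      exact hnot (h (show e ∈ {z | EqvGen ((B.rel hσ).cmap T0 e).rel e z} from EqvGen.refl _))
    exact Set.ncard_lt_ncard hss (Set.toFinite _)
  omega

end Bs

open Classical in
theorem exists_side (h : HasPlanarCover K7C4) :
    ∃ (D : Type) (_ : Fintype D) (M : CMap D) (lab : D → Fin 7 × Fin 7) (e : D),
      Side M lab e := by
  obtain ⟨n, H, φ, hs, hφ, hpl⟩ := h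
  obtain ⟨rot, hrot, hdef⟩ := hpl.defect_eq
  have hD : Fintype H.Dart := Fintype.ofFinite _
  have hfst : ∀ x, (rot x).fst = x.fst := fun x => ((hrot x (rot x)).1 ⟨1, by simp⟩).symm
  set B : Bs H.Dart :=
    { rot := rot
      inv := flip H
      lab := fun d => (φ d.fst, φ d.snd)
      inv_inv := fun d => d.symm_symm
      inv_ne := fun d => d.symm_ne
      lab_inv := fun d => rfl
      adj := fun d => hφ.adj d.adj
      src := fun d => congrArg φ (hfst d)
      inj := fun d d' h h' => by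
        refine hφ.dart_inj ((hrot _ _).1 h) ?_
        exact SimpleGraph.Dart.ext _ _ (Prod.ext (congrArg φ ((hrot _ _).1 h)) h')
      surj := fun d j hj => by
        obtain ⟨d', h1, h2⟩ := hφ.dart_surj d.fst ⟨(φ d.fst, j), hj⟩ rfl
        exact ⟨d', (hrot _ _).2 h1.symm, congrArg (fun e : K7C4.Dart => e.snd) h2⟩ } with hB
  obtain ⟨w, hw⟩ := hs 0
  obtain ⟨d0, hd0, -⟩ := hφ.dart_surj w ⟨(φ w, 1), by rw [hw]; decide⟩ rfl
  have h0 : (B.lab d0).1 = 0 := by
    show φ d0.fst = 0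
    rw [hd0, hw]
  obtain ⟨σ, hσ, e, he, hmin⟩ := B.exists_min d0 h0
  have hone := (B.rel hσ).oneCircle tri_T0 he.1
  have hsep : ¬ EqvGen ((B.rel hσ).cmap T0 e).rel e (B.inv e) := hone.sep hdef
  refine ⟨H.Dart, hD, (B.rel hσ).cmap T0 e, (B.rel hσ).lab, e, ?_⟩
  refine
    { Fc := fun _ => Iff.rfl
      lab_inv := (B.rel hσ).lab_inv
      adj := (B.rel hσ).adj
      src := (B.rel hσ).src
      inj := (B.rel hσ).inj
      surj := (B.rel hσ).surj
      he := hone.he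
      cT := fun x hx => hx.1
      cx := ?_
      cont := ?_
      euler := hone.euler hdef e
      nonemp := he.2
      face0 := ?_
      face1 := ?_
      face2 := ?_ }
  · intro x y hx hxy hy
    have h1 : ((B.rel hσ).lab y).1 = ((B.rel hσ).lab x).1 := (B.rel hσ).src_same hxy
    have hon : (B.rel hσ).On T0 y := ⟨by rw [h1]; exact hx.1.1, hy⟩
    exact ⟨hon, hx.2.trans _ _ _ (EqvGen.rel _ _ ⟨hx.1, hon, Or.inr hxy⟩)⟩
  · intro x hx hcx
    refine (hone.two x hcx).resolve_right fun h => hsep ?_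
    have h1 : EqvGen ((B.rel hσ).cmap T0 e).rel (B.inv e) x :=
      CMap.same_eqv _ h
    exact hx.trans _ _ _ (h1.symm _ _)
  · intro x hx hcx h1 h2
    obtain ⟨f, hf, hall⟩ := B.key hdef he hmin hσ (x := x) ⟨h1, h2⟩ (by
      rintro y z hy hz hyz
      apply hcx
      refine ⟨⟨h1, h2⟩, hy.2.trans _ _ _ ((EqvGen.rel _ _ ⟨hy.1, hz.1, Or.inr hyz⟩).trans _ _ _
        (hz.2.symm _ _))⟩) hx
    rcases hf with rfl | rfl
    · exact Or.inl fun y hy => (hall y (SameCycle.refl _ _) hy).1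
    · exact Or.inr fun y hy => (hall y (SameCycle.refl _ _) hy).1
  · intro x hx h1 h2
    have hon : (B.rel (aut_τ1.mul hσ)).On T0 x := ⟨(T0_τ1 _).2 h1, (T0_τ1 _).2 h2⟩
    obtain ⟨f, hf, hall⟩ := B.key hdef he hmin (aut_τ1.mul hσ) hon (by
      rintro y z hy hz hyz
      have h3 : ((B.rel hσ).lab z).1 = ((B.rel hσ).lab y).1 := (B.rel hσ).src_same hyz
      have h4 : T1 ((B.rel hσ).lab z).1 := (T0_τ1 _).1 hz.1.1
      rw [h3] at h4
      exact T0_T1 _ hy.1.1 h4) hx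
    rcases hf with rfl | rfl
    · exact Or.inl fun y hy => ⟨(T0_τ1 _).1 (hall y (SameCycle.refl _ _) hy).1.1,
        (T0_τ1 _).1 (hall y (SameCycle.refl _ _) hy).1.2⟩
    · exact Or.inr fun y hy => ⟨(T0_τ1 _).1 (hall y (SameCycle.refl _ _) hy).1.1,
        (T0_τ1 _).1 (hall y (SameCycle.refl _ _) hy).1.2⟩
  · intro x hx h1 h2
    have hon : (B.rel (aut_τ2.mul hσ)).On T0 x := ⟨(T0_τ2 _).2 h1, (T0_τ2 _).2 h2⟩
    obtain ⟨f, hf, hall⟩ := B.key hdef he hmin (aut_τ2.mul hσ) hon (by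
      rintro y z hy hz hyz
      have h3 : ((B.rel hσ).lab z).1 = ((B.rel hσ).lab y).1 := (B.rel hσ).src_same hyz
      have h4 : T2 ((B.rel hσ).lab z).1 := (T0_τ2 _).1 hz.1.1
      rw [h3] at h4
      exact T0_T2 _ hy.1.1 h4) hx
    rcases hf with rfl | rfl
    · exact Or.inl fun y hy => ⟨(T0_τ2 _).1 (hall y (SameCycle.refl _ _) hy).1.1,
        (T0_τ2 _).1 (hall y (SameCycle.refl _ _) hy).1.2⟩
    · exact Or.inr fun y hy => ⟨(T0_τ2 _).1 (hall y (SameCycle.refl _ _) hy).1.1,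
        (T0_τ2 _).1 (hall y (SameCycle.refl _ _) hy).1.2⟩

end Pool.Agent.Lib.MP_5854e1_co.K7S
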