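import Pool.Agent.Lib.MP_5854e1_co.Crc.RegionThm
import Pool.Agent.Lib.MP_5854e1_co.K7Map

/-!
# The minimal side for `K_7 - C_4`

Interface between the topological part (one circle in a planar map, nesting, minimal side) and the
local part of the proof that `K_7 - C_4` has no finite planar cover.

The labels: `x = 0`, `a a' = 3 4`; `y = 1`, `z = 2`, `b b' = 5 6`.
-/

set_option autoImplicit false

open Equiv Equiv.Perm Relation

namespace Pool.Agent.Lib.MP_5854e1_co.K7S

open Crc

/-- the triangles `0 3 4`, `1 5 6`, `2 5 6` -/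
def T0 (i : Fin 7) : Prop := i = 0 ∨ i = 3 ∨ i = 4

/-- the triangle `1 5 6` -/
def T1 (i : Fin 7) : Prop := i = 1 ∨ i = 5 ∨ i = 6

/-- the triangle `2 5 6` -/
def T2 (i : Fin 7) : Prop := i = 2 ∨ i = 5 ∨ i = 6

instance : DecidablePred T0 := fun _ => inferInstanceAs (Decidable (_ ∨ _))
instance : DecidablePred T1 := fun _ => inferInstanceAs (Decidable (_ ∨ _))
instance : DecidablePred T2 := fun _ => inferInstanceAs (Decidable (_ ∨ _))

variable {D : Type*}

/-- One circle in a map: only its darts are contracted, it has two contours, and every vertex of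
the circle has exactly two darts on it. -/
structure OneCircle (M : CMap D) (e : D) : Prop where
  Fc : ∀ x, M.F x ↔ M.c x
  he : M.c e
  two : ∀ x, M.c x → M.th.SameCycle e x ∨ M.th.SameCycle (M.inv e) x
  ne : ¬ M.th.SameCycle e (M.inv e)
  deg : ∀ x, M.c x → ∃ y, M.rot.SameCycle x y ∧ y ≠ x ∧ M.c y ∧
    ∀ z, M.rot.SameCycle x z → M.c z → z = x ∨ z = y

/-- all the darts of the face of `x` have both labels in `S` -/
def FaceIn (M : CMap D) (lab : D → Fin 7 × Fin 7) (S : Fin 7 → Prop) (x : D) : Prop :=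
  ∀ y, M.fc.SameCycle x y → S (lab y).1 ∧ S (lab y).2

open Classical in
/-- The minimal side: the circle `c` is over the triangle `0 3 4`, the side is the orbit of `e`;
all the other circles over `0 3 4` and the circles over `1 5 6` and `2 5 6` in this side are
faces. -/
structure Side [Fintype D] (M : CMap D) (lab : D → Fin 7 × Fin 7) (e : D) : Prop where
  Fc : ∀ x, M.F x ↔ M.c x
  lab_inv : ∀ d, lab (M.inv d) = (lab d).swap
  adj : ∀ d, K7C4.Adj (lab d).1 (lab d).2
  src : ∀ d, (lab (M.rot d)).1 = (lab d).1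
  inj : ∀ d d', M.rot.SameCycle d d' → (lab d).2 = (lab d').2 → d = d'
  surj : ∀ d j, K7C4.Adj (lab d).1 j → ∃ d', M.rot.SameCycle d d' ∧ (lab d').2 = j
  he : M.c e
  cT : ∀ x, M.c x → T0 (lab x).1 ∧ T0 (lab x).2
  cx : ∀ x y, M.c x → M.rot.SameCycle x y → T0 (lab y).2 → M.c y
  cont : ∀ x, EqvGen M.rel e x → M.c x → M.th.SameCycle e x
  euler : 2 ≤ ∑ x ∈ Finset.univ.filter (fun x => EqvGen M.rel e x),
    (vv M.th x + vv M.fc x - (if M.F x then 0 else 1 / 2))
  nonemp : ∃ x, EqvGen M.rel e x ∧ ¬ M.c x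
  face0 : ∀ x, EqvGen M.rel e x → ¬ M.c x → T0 (lab x).1 → T0 (lab x).2 →
    FaceIn M lab T0 x ∨ FaceIn M lab T0 (M.inv x)
  face1 : ∀ x, EqvGen M.rel e x → T1 (lab x).1 → T1 (lab x).2 →
    FaceIn M lab T1 x ∨ FaceIn M lab T1 (M.inv x)
  face2 : ∀ x, EqvGen M.rel e x → T2 (lab x).1 → T2 (lab x).2 →
    FaceIn M lab T2 x ∨ FaceIn M lab T2 (M.inv x)

end Pool.Agent.Lib.MP_5854e1_co.K7S
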