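import Pool.Agent.Lib.MP_5854e1_co.K7S.Defs

/-!
# The local part: basic facts about the side
-/

set_option autoImplicit false

open Equiv Equiv.Perm Relation

namespace Pool.Agent.Lib.MP_5854e1_co.K7S

open Crc

namespace Side

variable {D : Type*} [Fintype D] {M : CMap D} {lab : D → Fin 7 × Fin 7} {e : D}

/-! ### the side is invariant -/

omit [Fintype D] in
theorem q_step {x y : D} (hxy : M.rel x y) : EqvGen M.rel e x ↔ EqvGen M.rel e y :=
  ⟨fun h => h.trans _ _ _ (EqvGen.rel _ _ hxy), fun h => h.trans _ _ _ ((EqvGen.rel _ _ hxy).symm)⟩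

omit [Fintype D] in
theorem q_th (x : D) : EqvGen M.rel e (M.th x) ↔ EqvGen M.rel e x := (q_step (Or.inl rfl)).symm

omit [Fintype D] in
theorem q_ga (x : D) : EqvGen M.rel e (M.ga x) ↔ EqvGen M.rel e x := (q_step (Or.inr rfl)).symm

omit [Fintype D] in
theorem q_fc (x : D) : EqvGen M.rel e (M.fc x) ↔ EqvGen M.rel e x := by
  rw [← M.th_ga, q_th, q_ga]

/-- the vertex of `x` is on the circle -/
def XV (M : CMap D) (x : D) : Prop := ∃ y, M.c y ∧ M.rot.SameCycle x y

omit [Fintype D] in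
theorem xv_of_c {x : D} (hx : M.c x) : XV M x := ⟨x, hx, SameCycle.refl _ _⟩

omit [Fintype D] in
theorem xv_same {x y : D} (h : M.rot.SameCycle x y) : XV M x ↔ XV M y :=
  ⟨fun ⟨z, hz, h1⟩ => ⟨z, hz, h.symm.trans h1⟩, fun ⟨z, hz, h1⟩ => ⟨z, hz, h.trans h1⟩⟩

omit [Fintype D] in
theorem same_rot (x : D) : M.rot.SameCycle x (M.rot x) := ⟨1, by simp⟩

omit [Fintype D] in
theorem xv_rot (x : D) : XV M (M.rot x) ↔ XV M x := (xv_same (same_rot x)).symm

variable (h : Side M lab e)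

include h

theorem q_inv {x : D} (hx : ¬ M.c x) : EqvGen M.rel e (M.inv x) ↔ EqvGen M.rel e x := by
  rw [← M.ga_nF (fun hF => hx ((h.Fc x).1 hF)), q_ga]

theorem th_rot {x : D} (hx : ¬ M.c x) : M.th x = M.rot x := M.th_nF (fun hF => hx ((h.Fc x).1 hF))

theorem q_rot {x : D} (hx : ¬ XV M x) : EqvGen M.rel e (M.rot x) ↔ EqvGen M.rel e x := by
  rw [← h.th_rot (fun hc => hx (xv_of_c hc)), q_th]

theorem q_same {x y : D} (hx : ¬ XV M x) (hxy : M.rot.SameCycle x y) :
    EqvGen M.rel e x ↔ EqvGen M.rel e y := by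
  obtain ⟨i, -, rfl⟩ := sameCycle_iterate M.rot hxy
  clear hxy
  induction i with
  | zero => exact Iff.rfl
  | succ i ih =>
    rw [Function.iterate_succ_apply', h.q_rot, ih]
    intro hh
    refine hx ((xv_same ?_).2 hh)
    exact ⟨i, by rw [zpow_natCast, Equiv.Perm.coe_pow]⟩

theorem src_same {x y : D} (hxy : M.rot.SameCycle x y) : (lab x).1 = (lab y).1 := by
  obtain ⟨i, -, rfl⟩ := sameCycle_iterate M.rot hxy
  clear hxy
  induction i with
  | zero => rfl
  | succ i ih => rw [Function.iterate_succ_apply', h.src, ih]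

theorem src_inv (x : D) : (lab (M.inv x)).1 = (lab x).2 := by rw [h.lab_inv]; rfl

theorem tgt_inv (x : D) : (lab (M.inv x)).2 = (lab x).1 := by rw [h.lab_inv]; rfl

theorem src_fc (x : D) : (lab (M.fc x)).1 = (lab x).2 := by
  show (lab (M.rot (M.inv x))).1 = _
  rw [h.src, h.src_inv]

theorem xv_T0 {x : D} (hx : XV M x) : T0 (lab x).1 := by
  obtain ⟨y, hy, hxy⟩ := hx
  rw [h.src_same hxy]
  exact (h.cT y hy).1

theorem not_xv {x : D} (hx : ¬ T0 (lab x).1) : ¬ XV M x := fun hh => hx (h.xv_T0 hh)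

theorem c_of_xv {x : D} (hx : XV M x) (ht : T0 (lab x).2) : M.c x := by
  obtain ⟨y, hy, hxy⟩ := hx
  exact h.cx y x hy hxy.symm ht

/-! ### the darts around a vertex -/

open Classical in
theorem sum_cl (x : D) (g : Fin 7 → ℚ) : ∑ y ∈ cl M.rot x, g (lab y).2 =
    ∑ j ∈ Finset.univ.filter (fun j => K7C4.Adj (lab x).1 j), g j := by
  refine Finset.sum_nbij (fun y => (lab y).2) ?_ ?_ ?_ ?_
  · intro y hy
    rw [Finset.mem_filter]
    refine ⟨Finset.mem_univ _, ?_⟩
    rw [h.src_same (mem_cl.1 hy)]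
    exact h.adj y
  · intro y hy z hz hyz
    exact h.inj y z ((mem_cl.1 (Finset.mem_coe.1 hy)).symm.trans
      (mem_cl.1 (Finset.mem_coe.1 hz))) hyz
  · intro j hj
    obtain ⟨y, hy, hyj⟩ := h.surj x j (Finset.mem_filter.1 (Finset.mem_coe.1 hj)).2
    exact ⟨y, Finset.mem_coe.2 (mem_cl.2 hy), hyj⟩
  · intro y _
    rfl

theorem per (x : D) : Function.minimalPeriod M.rot x =
    (Finset.univ.filter (fun j => K7C4.Adj (lab x).1 j)).card := by
  have h1 := h.sum_cl x (fun _ => 1)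
  rw [Finset.sum_const, Finset.sum_const, card_cl, nsmul_eq_mul, nsmul_eq_mul, mul_one,
    mul_one] at h1
  exact_mod_cast h1

theorem per_ge (x : D) : 4 ≤ Function.minimalPeriod M.rot x := by
  rw [h.per]
  have : ∀ i : Fin 7, 4 ≤ (Finset.univ.filter (fun j => K7C4.Adj i j)).card := by decide
  exact this _

theorem per_six {x : D} (hx : (lab x).1 = 0 ∨ (lab x).1 = 1 ∨ (lab x).1 = 2) :
    Function.minimalPeriod M.rot x = 6 := by
  rw [h.per]
  have : ∀ i : Fin 7, i = 0 ∨ i = 1 ∨ i = 2 →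
    (Finset.univ.filter (fun j => K7C4.Adj i j)).card = 6 := by decide
  exact this _ hx

theorem iter_ne {x : D} {k : ℕ} (h0 : 0 < k) (hk : k < Function.minimalPeriod M.rot x) :
    M.rot^[k] x ≠ x := by
  intro hh
  have := Function.IsPeriodicPt.minimalPeriod_dvd (show Function.IsPeriodicPt M.rot k x from hh)
  have := Nat.le_of_dvd h0 this
  omega

theorem tgt_ne {x : D} {k : ℕ} (h0 : 0 < k) (hk : k < Function.minimalPeriod M.rot x) :
    (lab (M.rot^[k] x)).2 ≠ (lab x).2 := by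
  intro hh
  refine h.iter_ne h0 hk (h.inj _ _ ?_ hh)
  exact (show M.rot.SameCycle x (M.rot^[k] x) from
    ⟨k, by rw [zpow_natCast, Equiv.Perm.coe_pow]⟩).symm

theorem rot_ne (x : D) : (lab (M.rot x)).2 ≠ (lab x).2 :=
  h.tgt_ne (k := 1) one_pos (by have := h.per_ge x; omega)

theorem rot_ne2 (x : D) : (lab (M.rot (M.rot x))).2 ≠ (lab x).2 :=
  h.tgt_ne (k := 2) two_pos (by have := h.per_ge x; omega)

theorem rot_ne3 (x : D) : (lab (M.rot (M.rot (M.rot x)))).2 ≠ (lab x).2 :=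
  h.tgt_ne (k := 3) (by norm_num) (by have := h.per_ge x; omega)

theorem adj_src {x y : D} (hxy : M.rot.SameCycle x y) : K7C4.Adj (lab x).1 (lab y).2 := by
  rw [h.src_same hxy]
  exact h.adj y

end Side

end Pool.Agent.Lib.MP_5854e1_co.K7S
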