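import Pool.Agent.Lib.MP_5854e1_co.K7S.LocA

/-!
# The local part: signs along the faces
-/

set_option autoImplicit false

open Equiv Equiv.Perm Relation

namespace Pool.Agent.Lib.MP_5854e1_co.K7S

open Crc

/-- the positive pattern `1 → 2 → {5, 6} → 1` -/
def ps (i j : Fin 7) : Prop := (i = 1 ∧ j = 2) ∨ (i = 2 ∧ (j = 5 ∨ j = 6)) ∨ ((i = 5 ∨ i = 6) ∧ j = 1)

instance (i j : Fin 7) : Decidable (ps i j) := inferInstanceAs (Decidable (_ ∨ _))

namespace Side

variable {D : Type*} [Fintype D] {M : CMap D} {lab : D → Fin 7 × Fin 7} {e : D}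

/-- the first dart from `d` on (in the rotation) with the target not in `0 3 4` -/
noncomputable def nq (M : CMap D) (lab : D → Fin 7 × Fin 7) (d : D) : D :=
  if T0 (lab d).2 then (if T0 (lab (M.rot d)).2 then (if T0 (lab (M.rot (M.rot d))).2 then
    M.rot (M.rot (M.rot d)) else M.rot (M.rot d)) else M.rot d) else d

/-- the sign of a dart at a vertex over `1 2 5 6` -/
def Plus (M : CMap D) (lab : D → Fin 7 × Fin 7) (d : D) : Prop := ps (lab d).1 (lab (nq M lab d)).2

omit [Fintype D] in
theorem nq_iter (d : D) : ∃ k < 4, nq M lab d = M.rot^[k] d := by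
  unfold nq
  split_ifs
  · exact ⟨3, by norm_num, rfl⟩
  · exact ⟨2, by norm_num, rfl⟩
  · exact ⟨1, by norm_num, rfl⟩
  · exact ⟨0, by norm_num, rfl⟩

omit [Fintype D] in
theorem nq_same (d : D) : M.rot.SameCycle d (nq M lab d) := by
  obtain ⟨k, -, hk⟩ := nq_iter (M := M) (lab := lab) d
  rw [hk]
  exact ⟨k, by rw [zpow_natCast, Equiv.Perm.coe_pow]⟩

omit [Fintype D] in
theorem nq_self {d : D} (hd : ¬ T0 (lab d).2) : nq M lab d = d := by
  unfold nq; rw [if_neg hd]

theorem three (a b c d : Fin 7) (ha : T0 a) (hb : T0 b) (hc : T0 c) (hd : T0 d) (h1 : a ≠ b)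
    (h2 : a ≠ c) (h3 : a ≠ d) (h4 : b ≠ c) (h5 : b ≠ d) (h6 : c ≠ d) : False := by
  rcases ha with rfl | rfl | rfl <;> rcases hb with rfl | rfl | rfl <;>
    rcases hc with rfl | rfl | rfl <;> rcases hd with rfl | rfl | rfl <;> simp_all

variable (h : Side M lab e)

include h

theorem nq_tgt (d : D) : ¬ T0 (lab (nq M lab d)).2 := by
  unfold nq
  split_ifs with h1 h2 h3
  · intro h4
    exact three _ _ _ _ h1 h2 h3 h4 (h.rot_ne d).symm (h.rot_ne2 d).symm (h.rot_ne3 d).symm
      (h.rot_ne _).symm (h.rot_ne2 _).symm (h.rot_ne _).symm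
  · exact h3
  · exact h2
  · exact h1

/-- after a port, the next dart not to `0 3 4` is the same -/
theorem nq_rot {d : D} (hd : T0 (lab d).2) : nq M lab (M.rot d) = nq M lab d := by
  have h4 := h.nq_tgt d
  unfold nq at h4 ⊢
  rw [if_pos hd] at h4 ⊢
  by_cases h1 : T0 (lab (M.rot d)).2
  · rw [if_pos h1] at h4 ⊢
    rw [if_pos h1]
    by_cases h2 : T0 (lab (M.rot (M.rot d))).2
    · rw [if_pos h2] at h4 ⊢
      rw [if_pos h2, if_neg h4]
    · rw [if_neg h2, if_neg h2]
  · rw [if_neg h1, if_neg h1]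

theorem plus_rot {d : D} (hd : T0 (lab d).2) : Plus M lab (M.rot d) ↔ Plus M lab d := by
  unfold Plus
  rw [h.nq_rot hd, h.src]

/-- at a vertex of degree six the next dart is another one -/
theorem nq_ne {d : D} (hd : (lab d).1 = 1 ∨ (lab d).1 = 2) :
    (lab (nq M lab (M.rot d))).2 ≠ (lab d).2 := by
  obtain ⟨k, hk, h1⟩ := nq_iter (M := M) (lab := lab) (M.rot d)
  rw [h1, ← Function.iterate_succ_apply]
  refine h.tgt_ne (Nat.succ_pos k) ?_
  rw [h.per_six (Or.inr hd)]
  omega

/-- it is not the previous one -/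
theorem nq_ne_prev {d p : D} (hd : (lab d).1 = 1 ∨ (lab d).1 = 2) (hp : M.rot p = d) :
    nq M lab (M.rot d) ≠ p := by
  obtain ⟨k, hk, h1⟩ := nq_iter (M := M) (lab := lab) (M.rot d)
  rw [h1]
  intro h2
  have h3 : M.rot^[k + 2] d = d := by
    rw [Function.iterate_succ_apply', Function.iterate_succ_apply, h2, hp]
  exact h.iter_ne (Nat.succ_pos _) (by rw [h.per_six (Or.inr hd)]; omega) h3

/-! ### faces in three labels -/

omit h in
theorem faceIn_self {S : Fin 7 → Prop} {x : D} (hx : FaceIn M lab S x) : S (lab x).1 ∧ S (lab x).2 :=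
  hx x (SameCycle.refl _ _)

omit h in
theorem faceIn_fc {S : Fin 7 → Prop} {x : D} (hx : FaceIn M lab S x) : FaceIn M lab S (M.fc x) :=
  fun y hy => hx y (SameCycle.trans ⟨1, by simp⟩ hy)

omit h in
theorem faceIn_prev {S : Fin 7 → Prop} {x : D} (hx : FaceIn M lab S x) :
    FaceIn M lab S (M.fc⁻¹ x) :=
  fun y hy => hx y (SameCycle.trans ⟨-1, by simp⟩ hy)

omit h in
theorem fc_eq (x : D) : M.fc x = M.rot (M.inv x) := rfl

omit h in
theorem fc_inv (x : D) : M.fc (M.inv x) = M.rot x := by rw [fc_eq, M.inv_inv]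

/-- the dart before `inv x` at the head of `x`, if the face of `x` is in `S` -/
theorem faceIn_rot {S : Fin 7 → Prop} {x : D} (hx : FaceIn M lab S x) :
    S (lab (M.rot (M.inv x))).2 := (faceIn_self (faceIn_fc hx)).2

/-- the dart before `x` in the rotation, if the face of `x` is in `S` -/
theorem faceIn_before {S : Fin 7 → Prop} {x : D} (hx : FaceIn M lab S x) :
    ∃ p, M.rot p = x ∧ S (lab p).2 := by
  refine ⟨M.rot⁻¹ x, by simp, ?_⟩
  have h1 := (faceIn_self (faceIn_prev hx)).1
  have h2 : M.fc⁻¹ x = M.inv (M.rot⁻¹ x) := by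
    rw [Equiv.Perm.inv_eq_iff_eq, fc_eq, M.inv_inv]
    simp
  rw [h2, h.src_inv] at h1
  exact h1

theorem adj5 {x : D} (hx : (lab x).1 = 5) : (lab x).2 = 0 ∨ (lab x).2 = 1 ∨ (lab x).2 = 2 ∨
    (lab x).2 = 6 := by
  have h1 := h.adj x
  rw [hx] at h1
  have : ∀ j : Fin 7, K7C4.Adj 5 j → j = 0 ∨ j = 1 ∨ j = 2 ∨ j = 6 := by decide
  exact this _ h1

theorem adj6 {x : D} (hx : (lab x).1 = 6) : (lab x).2 = 0 ∨ (lab x).2 = 1 ∨ (lab x).2 = 2 ∨
    (lab x).2 = 5 := by
  have h1 := h.adj x
  rw [hx] at h1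
  have : ∀ j : Fin 7, K7C4.Adj 6 j → j = 0 ∨ j = 1 ∨ j = 2 ∨ j = 5 := by decide
  exact this _ h1

/-- the labels around a vertex over `5` or `6` -/
theorem beta_unique {x y : D} (hxy : M.rot.SameCycle x y) (hs : (lab x).1 = 5 ∨ (lab x).1 = 6)
    (hx : (lab x).2 = 5 ∨ (lab x).2 = 6) (hy : (lab y).2 = 5 ∨ (lab y).2 = 6) : x = y := by
  refine h.inj x y hxy ?_
  have h1 := h.adj x
  have h2 := h.adj_src hxy
  have : ∀ i j k : Fin 7, (i = 5 ∨ i = 6) → (j = 5 ∨ j = 6) → (k = 5 ∨ k = 6) → K7C4.Adj i j →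
    K7C4.Adj i k → j = k := by decide
  exact this _ _ _ hs hx hy h1 h2

/-- the two orientations of a vertex over `5` or `6` -/
theorem beta {x : D} (hq : EqvGen M.rel e x) (hs : (lab x).1 = 5 ∨ (lab x).1 = 6) :
    (∀ d, M.rot.SameCycle x d → ((lab d).2 = 1 → (lab (M.rot d)).2 = 5 ∨ (lab (M.rot d)).2 = 6) ∧
      ((lab d).2 = 5 ∨ (lab d).2 = 6 → (lab (M.rot d)).2 = 2) ∧
      ((lab d).2 = 2 → (lab (M.rot d)).2 = 0) ∧ ((lab d).2 = 0 → (lab (M.rot d)).2 = 1)) ∨
    (∀ d, M.rot.SameCycle x d → ((lab d).2 = 2 → (lab (M.rot d)).2 = 5 ∨ (lab (M.rot d)).2 = 6) ∧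
      ((lab d).2 = 5 ∨ (lab d).2 = 6 → (lab (M.rot d)).2 = 1) ∧
      ((lab d).2 = 1 → (lab (M.rot d)).2 = 0) ∧ ((lab d).2 = 0 → (lab (M.rot d)).2 = 2)) := by
  have hT : ¬ T0 (lab x).1 := by
    rcases hs with hs | hs <;> rw [hs] <;> decide
  have hxv := h.not_xv hT
  have a1 : K7C4.Adj (lab x).1 1 := by rcases hs with hs | hs <;> rw [hs] <;> decide
  have a2 : K7C4.Adj (lab x).1 2 := by rcases hs with hs | hs <;> rw [hs] <;> decide
  have a0 : K7C4.Adj (lab x).1 0 := by rcases hs with hs | hs <;> rw [hs] <;> decide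
  have ab : ∃ j, K7C4.Adj (lab x).1 j ∧ (j = 5 ∨ j = 6) := by
    rcases hs with hs | hs
    · exact ⟨6, by rw [hs]; decide, Or.inr rfl⟩
    · exact ⟨5, by rw [hs]; decide, Or.inl rfl⟩
  obtain ⟨dy, cy, ly⟩ := h.surj x 1 a1
  obtain ⟨dz, cz, lz⟩ := h.surj x 2 a2
  obtain ⟨dx, cx, lx⟩ := h.surj x 0 a0
  obtain ⟨j, aj, hj⟩ := ab
  obtain ⟨db, cb, lb⟩ := h.surj x j aj
  rw [← lb] at hj
  -- every dart at the vertex is one of the four
  have all : ∀ d, M.rot.SameCycle x d → d = dy ∨ d = dz ∨ d = dx ∨ d = db := by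
    intro d hd
    have h1 := h.adj_src hd
    have : ∀ i k : Fin 7, (i = 5 ∨ i = 6) → K7C4.Adj i k → k = 1 ∨ k = 2 ∨ k = 0 ∨ (k = 5 ∨ k = 6) := by
      decide
    rcases this _ _ hs h1 with h2 | h2 | h2 | h2
    · exact Or.inl (h.inj _ _ (hd.symm.trans cy) (h2.trans ly.symm))
    · exact Or.inr (Or.inl (h.inj _ _ (hd.symm.trans cz) (h2.trans lz.symm)))
    · exact Or.inr (Or.inr (Or.inl (h.inj _ _ (hd.symm.trans cx) (h2.trans lx.symm))))
    · refine Or.inr (Or.inr (Or.inr (h.beta_unique (hd.symm.trans cb) ?_ h2 hj)))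
      rw [← h.src_same hd]
      exact hs
  have rs : ∀ {d : D}, M.rot.SameCycle x d → M.rot.SameCycle x (M.rot d) :=
    fun hd => hd.trans (same_rot _)
  have qy := (h.q_same hxv cy).1 hq
  have qz := (h.q_same hxv cz).1 hq
  have ne : ∀ {a b : D}, (lab a).2 ≠ (lab b).2 → a ≠ b := fun hh hab => hh (by rw [hab])
  have lyb : (lab dy).2 ≠ (lab db).2 := by rw [ly]; rcases hj with hj | hj <;> rw [hj] <;> decide
  have lzb : (lab dz).2 ≠ (lab db).2 := by rw [lz]; rcases hj with hj | hj <;> rw [hj] <;> decide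
  have lxb : (lab dx).2 ≠ (lab db).2 := by rw [lx]; rcases hj with hj | hj <;> rw [hj] <;> decide
  have lyz : (lab dy).2 ≠ (lab dz).2 := by rw [ly, lz]; decide
  have lyx : (lab dy).2 ≠ (lab dx).2 := by rw [ly, lx]; decide
  have lzx : (lab dz).2 ≠ (lab dx).2 := by rw [lz, lx]; decide
  -- the two faces at `dy`
  have hA : M.rot dy = db ∨ M.rot db = dy := by
    have t1 : T1 (lab dy).1 := by
      rw [← h.src_same cy]; rcases hs with hs | hs <;> rw [hs] <;> decide
    have t2 : T1 (lab dy).2 := by rw [ly]; decide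
    rcases h.face1 dy qy t1 t2 with hf | hf
    · obtain ⟨p, hp, tp⟩ := h.faceIn_before hf
      right
      have cp : M.rot.SameCycle x p := cy.trans (by rw [← hp]; exact (same_rot p).symm)
      rcases all p cp with hr | hr | hr | hr
      · rw [hr] at hp; exact absurd (by rw [hp]) (h.rot_ne dy)
      · rw [hr, lz] at tp; exact absurd tp (by decide)
      · rw [hr, lx] at tp; exact absurd tp (by decide)
      · rw [← hr]; exact hp
    · left
      have tp := h.faceIn_rot hf
      rw [M.inv_inv] at tp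
      rcases all _ (rs cy) with hr | hr | hr | hr
      · exact absurd (by rw [hr]) (h.rot_ne dy)
      · rw [hr, lz] at tp; exact absurd tp (by decide)
      · rw [hr, lx] at tp; exact absurd tp (by decide)
      · exact hr
  have hB : M.rot dz = db ∨ M.rot db = dz := by
    have t1 : T2 (lab dz).1 := by
      rw [← h.src_same cz]; rcases hs with hs | hs <;> rw [hs] <;> decide
    have t2 : T2 (lab dz).2 := by rw [lz]; decide
    rcases h.face2 dz qz t1 t2 with hf | hf
    · obtain ⟨p, hp, tp⟩ := h.faceIn_before hf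
      right
      have cp : M.rot.SameCycle x p := cz.trans (by rw [← hp]; exact (same_rot p).symm)
      rcases all p cp with hr | hr | hr | hr
      · rw [hr, ly] at tp; exact absurd tp (by decide)
      · rw [hr] at hp; exact absurd (by rw [hp]) (h.rot_ne dz)
      · rw [hr, lx] at tp; exact absurd tp (by decide)
      · rw [← hr]; exact hp
    · left
      have tp := h.faceIn_rot hf
      rw [M.inv_inv] at tp
      rcases all _ (rs cz) with hr | hr | hr | hr
      · rw [hr, ly] at tp; exact absurd tp (by decide)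
      · exact absurd (by rw [hr]) (h.rot_ne dz)
      · rw [hr, lx] at tp; exact absurd tp (by decide)
      · exact hr
  have per4 : ∀ a b c : D, M.rot a = b → M.rot b = c → M.rot c = a → False := by
    intro a b c h1 h2 h3
    exact h.rot_ne3 a (by rw [h1, h2, h3])
  rcases hA with hA | hA
  · rcases hB with hB | hB
    · exact absurd (M.rot.injective (hA.trans hB.symm)) (ne lyz)
    · left
      have h1 : M.rot dz = dx := by
        rcases all _ (rs cz) with hr | hr | hr | hr
        · exact absurd hr fun hr => per4 _ _ _ hA hB hr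
        · exact absurd (by rw [hr]) (h.rot_ne dz)
        · exact hr
        · exact absurd (M.rot.injective (hA.trans hr.symm)) (ne lyz)
      have h2 : M.rot dx = dy := by
        rcases all _ (rs cx) with hr | hr | hr | hr
        · exact hr
        · exact absurd (M.rot.injective (hB.trans hr.symm)) (ne lxb).symm
        · exact absurd (by rw [hr]) (h.rot_ne dx)
        · exact absurd (M.rot.injective (hA.trans hr.symm)) (ne lyx)
      intro d hd
      rcases all d hd with rfl | rfl | rfl | rfl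
      · refine ⟨fun _ => by rw [hA]; exact hj, fun hh => ?_, fun hh => ?_, fun hh => ?_⟩
        · rw [ly] at hh; exact absurd hh (by decide)
        · rw [ly] at hh; exact absurd hh (by decide)
        · rw [ly] at hh; exact absurd hh (by decide)
      · refine ⟨fun hh => ?_, fun hh => ?_, fun _ => by rw [h1]; exact lx, fun hh => ?_⟩
        · rw [lz] at hh; exact absurd hh (by decide)
        · rw [lz] at hh; exact absurd hh (by decide)
        · rw [lz] at hh; exact absurd hh (by decide)
      · refine ⟨fun hh => ?_, fun hh => ?_, fun hh => ?_, fun _ => by rw [h2]; exact ly⟩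
        · rw [lx] at hh; exact absurd hh (by decide)
        · rw [lx] at hh; exact absurd hh (by decide)
        · rw [lx] at hh; exact absurd hh (by decide)
      · refine ⟨fun hh => ?_, fun _ => by rw [hB]; exact lz, fun hh => ?_, fun hh => ?_⟩
        · exact absurd (ly.trans hh.symm) lyb
        · exact absurd (lz.trans hh.symm) lzb
        · exact absurd (lx.trans hh.symm) lxb
  · rcases hB with hB | hB
    · right
      have h1 : M.rot dy = dx := by
        rcases all _ (rs cy) with hr | hr | hr | hr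
        · exact absurd (by rw [hr]) (h.rot_ne dy)
        · exact absurd hr fun hr => per4 _ _ _ hB hA hr
        · exact hr
        · exact absurd (M.rot.injective (hB.trans hr.symm)) (ne lyz).symm
      have h2 : M.rot dx = dz := by
        rcases all _ (rs cx) with hr | hr | hr | hr
        · exact absurd (M.rot.injective (hA.trans hr.symm)) (ne lxb).symm
        · exact hr
        · exact absurd (by rw [hr]) (h.rot_ne dx)
        · exact absurd (M.rot.injective (hB.trans hr.symm)) (ne lzx)
      intro d hd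
      rcases all d hd with rfl | rfl | rfl | rfl
      · refine ⟨fun hh => ?_, fun hh => ?_, fun _ => by rw [h1]; exact lx, fun hh => ?_⟩
        · rw [ly] at hh; exact absurd hh (by decide)
        · rw [ly] at hh; exact absurd hh (by decide)
        · rw [ly] at hh; exact absurd hh (by decide)
      · refine ⟨fun _ => by rw [hB]; exact hj, fun hh => ?_, fun hh => ?_, fun hh => ?_⟩
        · rw [lz] at hh; exact absurd hh (by decide)
        · rw [lz] at hh; exact absurd hh (by decide)
        · rw [lz] at hh; exact absurd hh (by decide)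
      · refine ⟨fun hh => ?_, fun hh => ?_, fun hh => ?_, fun _ => by rw [h2]; exact lz⟩
        · rw [lx] at hh; exact absurd hh (by decide)
        · rw [lx] at hh; exact absurd hh (by decide)
        · rw [lx] at hh; exact absurd hh (by decide)
      · refine ⟨fun hh => ?_, fun _ => by rw [hA]; exact ly, fun hh => ?_, fun hh => ?_⟩
        · exact absurd (lz.trans hh.symm) lzb
        · exact absurd (ly.trans hh.symm) lyb
        · exact absurd (lx.trans hh.symm) lxb
    · exact absurd (hA.symm.trans hB) (ne lyz)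

end Side

end Pool.Agent.Lib.MP_5854e1_co.K7S
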