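import Pool.Agent.Lib.MP_5854e1_co.K7S.LocB

/-!
# The local part: the sign is constant along the arcs
-/

set_option autoImplicit false

open Equiv Equiv.Perm Relation

namespace Pool.Agent.Lib.MP_5854e1_co.K7S

open Crc

namespace Side

variable {D : Type*} [Fintype D] {M : CMap D} {lab : D → Fin 7 × Fin 7} {e : D}

/-- the face of `x` meets a vertex over `0 3 4` -/
def Gen (M : CMap D) (lab : D → Fin 7 × Fin 7) (x : D) : Prop :=
  ∃ y, M.fc.SameCycle x y ∧ T0 (lab y).1

omit [Fintype D] in
theorem gen_not1 {x : D} (hx : Gen M lab x) : ¬ FaceIn M lab T1 x := by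
  rintro hf
  obtain ⟨y, hy, h0⟩ := hx
  have h1 := (hf y hy).1
  revert h0 h1
  generalize (lab y).1 = i
  revert i
  decide

omit [Fintype D] in
theorem gen_not2 {x : D} (hx : Gen M lab x) : ¬ FaceIn M lab T2 x := by
  rintro hf
  obtain ⟨y, hy, h0⟩ := hx
  have h1 := (hf y hy).1
  revert h0 h1
  generalize (lab y).1 = i
  revert i
  decide

omit [Fintype D] in
theorem gen_fc {x : D} : Gen M lab (M.fc x) ↔ Gen M lab x :=
  ⟨fun ⟨y, hy, h0⟩ => ⟨y, SameCycle.trans ⟨1, by simp⟩ hy, h0⟩,
    fun ⟨y, hy, h0⟩ => ⟨y, SameCycle.trans (SameCycle.symm ⟨1, by simp⟩) hy, h0⟩⟩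

theorem not_T0 : ∀ i : Fin 7, ¬ T0 i → i = 1 ∨ i = 2 ∨ i = 5 ∨ i = 6 := by decide

variable (h : Side M lab e)

include h

theorem nadj {x : D} : (lab x).1 ≠ (lab x).2 := (h.adj x).1

/-- no general face passes an edge over `56` -/
theorem no56 {g : D} (hq : EqvGen M.rel e g) (hg : Gen M lab g)
    (h1 : (lab g).1 = 5 ∨ (lab g).1 = 6) (h2 : (lab g).2 = 5 ∨ (lab g).2 = 6) : False := by
  have t1 : ∀ i : Fin 7, i = 5 ∨ i = 6 → T1 i ∧ T2 i := by decide
  have f1 := (h.face1 g hq (t1 _ h1).1 (t1 _ h2).1).resolve_left (gen_not1 hg)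
  have f2 := (h.face2 g hq (t1 _ h1).2 (t1 _ h2).2).resolve_left (gen_not2 hg)
  have r1 := h.faceIn_rot f1
  have r2 := h.faceIn_rot f2
  rw [M.inv_inv] at r1 r2
  have : ∀ i : Fin 7, T1 i → T2 i → i = 5 ∨ i = 6 := by decide
  exact h.rot_ne g (congrArg (fun d => (lab d).2)
    (h.beta_unique (same_rot g) h1 h2 (this _ r1 r2)).symm)

/-- at a vertex over `1` or `2`: the face of `inv g` is special, so the dart after `inv g` (not to
`0 3 4`) is the third one -/
theorem third {g : D} (h2 : (lab g).2 = 1 ∨ (lab g).2 = 2) (h1 : (lab g).1 = 5 ∨ (lab g).1 = 6)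
    {S : Fin 7 → Prop} (hS : ∀ i, S i → i ≠ (lab g).2 → i = 5 ∨ i = 6)
    (hf : FaceIn M lab S (M.inv g)) :
    ¬ ((lab (nq M lab (M.fc g))).2 = 5 ∨ (lab (nq M lab (M.fc g))).2 = 6) := by
  intro h3
  obtain ⟨p, hp, tp⟩ := h.faceIn_before hf
  have hs : (lab (M.inv g)).1 = 1 ∨ (lab (M.inv g)).1 = 2 := by rw [h.src_inv]; exact h2
  have k1 := h.nq_ne hs
  have k2 := h.nq_ne_prev hs hp
  rw [h.tgt_inv] at k1
  have hps : (lab p).1 = (lab g).2 := by
    rw [← h.src_inv g, ← hp, h.src]
  have tp' : (lab p).2 = 5 ∨ (lab p).2 = 6 := by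
    refine hS _ tp ?_
    rw [← hps]
    exact h.nadj.symm
  have hne : (lab p).2 ≠ (lab g).1 := by
    intro hh
    refine h.rot_ne p ?_
    rw [hp, h.tgt_inv, hh]
  apply k2
  have hsame : M.rot.SameCycle (M.inv g) p := by
    have := same_rot (M := M) p
    rw [hp] at this
    exact this.symm
  refine h.inj _ _ ((nq_same _).symm.trans (((same_rot _).symm).trans hsame)) ?_
  have : ∀ i j k : Fin 7, (i = 5 ∨ i = 6) → (j = 5 ∨ j = 6) → (k = 5 ∨ k = 6) → i ≠ k → j ≠ k →
      i = j := by decide
  exact this _ _ _ h3 tp' h1 k1 hne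

theorem plus_fc {g : D} (hq : EqvGen M.rel e g) (hg : Gen M lab g) (hs : ¬ T0 (lab g).1)
    (ht : ¬ T0 (lab g).2) :
    (Plus M lab (M.fc g) ↔ Plus M lab g) ∧ ((lab g).2 = 5 ∨ (lab g).2 = 6 → T0 (lab (M.fc g)).2) := by
  have n1 := gen_not1 hg
  have n2 := gen_not2 hg
  have hPg : Plus M lab g ↔ ps (lab g).1 (lab g).2 := by unfold Plus; rw [nq_self ht]
  have hPf : Plus M lab (M.fc g) ↔ ps (lab g).2 (lab (nq M lab (M.fc g))).2 := by
    unfold Plus; rw [h.src_fc]
  have hqT := h.nq_tgt (M.fc g)
  have hnadj : (lab g).1 ≠ (lab g).2 := h.nadj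
  rcases not_T0 _ ht with t | t | t | t
  · -- target 1
    have hk : (lab (nq M lab (M.fc g))).2 ≠ (lab g).1 := by
      have := h.nq_ne (d := M.inv g) (Or.inl (by rw [h.src_inv, t]))
      rw [h.tgt_inv] at this
      exact this
    have hadj : (lab (nq M lab (M.fc g))).2 ≠ 1 := by
      intro hh
      have h3 := h.adj_src (nq_same (M := M) (lab := lab) (M.fc g))
      rw [h.src_fc, t, hh] at h3
      exact h3.1 rfl
    refine ⟨?_, fun hh => ?_⟩
    · rw [hPg, hPf, t]
      rcases not_T0 _ hs with s | s | s | s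
      · exact absurd (s.trans t.symm) hnadj
      · rw [s] at hk ⊢
        revert hk hadj hqT
        generalize (lab (nq M lab (M.fc g))).2 = i
        revert i
        decide
      · have f1 := (h.face1 g hq (by rw [s]; decide) (by rw [t]; decide)).resolve_left n1
        have h3 := h.third (Or.inl t) (Or.inl s) (S := T1) (by rw [t]; decide) f1
        rw [s]
        revert h3 hadj hqT
        generalize (lab (nq M lab (M.fc g))).2 = i
        revert i
        decide
      · have f1 := (h.face1 g hq (by rw [s]; decide) (by rw [t]; decide)).resolve_left n1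
        have h3 := h.third (Or.inl t) (Or.inr s) (S := T1) (by rw [t]; decide) f1
        rw [s]
        revert h3 hadj hqT
        generalize (lab (nq M lab (M.fc g))).2 = i
        revert i
        decide
    · rw [t] at hh; exact absurd hh (by decide)
  · -- target 2
    have hk : (lab (nq M lab (M.fc g))).2 ≠ (lab g).1 := by
      have := h.nq_ne (d := M.inv g) (Or.inr (by rw [h.src_inv, t]))
      rw [h.tgt_inv] at this
      exact this
    have hadj : (lab (nq M lab (M.fc g))).2 ≠ 2 := by
      intro hh
      have h3 := h.adj_src (nq_same (M := M) (lab := lab) (M.fc g))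
      rw [h.src_fc, t, hh] at h3
      exact h3.1 rfl
    refine ⟨?_, fun hh => ?_⟩
    · rw [hPg, hPf, t]
      rcases not_T0 _ hs with s | s | s | s
      · rw [s] at hk ⊢
        revert hk hadj hqT
        generalize (lab (nq M lab (M.fc g))).2 = i
        revert i
        decide
      · exact absurd (s.trans t.symm) hnadj
      · have f1 := (h.face2 g hq (by rw [s]; decide) (by rw [t]; decide)).resolve_left n2
        have h3 := h.third (Or.inr t) (Or.inl s) (S := T2) (by rw [t]; decide) f1
        rw [s]
        revert h3 hadj hqT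
        generalize (lab (nq M lab (M.fc g))).2 = i
        revert i
        decide
      · have f1 := (h.face2 g hq (by rw [s]; decide) (by rw [t]; decide)).resolve_left n2
        have h3 := h.third (Or.inr t) (Or.inr s) (S := T2) (by rw [t]; decide) f1
        rw [s]
        revert h3 hadj hqT
        generalize (lab (nq M lab (M.fc g))).2 = i
        revert i
        decide
    · rw [t] at hh; exact absurd hh (by decide)
  all_goals
    -- target 5 or 6
    have tt : (lab g).2 = 5 ∨ (lab g).2 = 6 := by first | exact Or.inl t | exact Or.inr t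
    have hsx : (lab (M.inv g)).1 = 5 ∨ (lab (M.inv g)).1 = 6 := by rw [h.src_inv]; exact tt
    have hcnot : ¬ M.c g := fun hc => hs (h.cT g hc).1
    have hqi : EqvGen M.rel e (M.inv g) := (h.q_inv hcnot).2 hq
    rcases not_T0 _ hs with s | s | s | s
    · -- 1 → β
      have f1 := (h.face1 g hq (by rw [s]; decide)
        (by rcases tt with tt | tt <;> rw [tt] <;> decide)).resolve_left n1
      obtain ⟨p, hp, tp⟩ := h.faceIn_before f1
      have hps : (lab p).1 = (lab g).2 := by rw [← h.src_inv g, ← hp, h.src]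
      have hp56 : (lab p).2 = 5 ∨ (lab p).2 = 6 := by
        have hne : (lab p).2 ≠ 1 := by
          intro hh
          refine h.rot_ne p ?_
          rw [hp, h.tgt_inv, s, hh]
        revert tp hne
        generalize (lab p).2 = i
        revert i
        decide
      have hsame : M.rot.SameCycle (M.inv g) p := by
        have := same_rot (M := M) p
        rw [hp] at this
        exact this.symm
      rcases h.beta hqi hsx with hb | hb
      · have := (hb p hsame).2.1 hp56
        rw [hp, h.tgt_inv, s] at this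
        exact absurd this (by decide)
      · have b1 := (hb _ (SameCycle.refl _ _)).2.2.1 (by rw [h.tgt_inv, s])
        have b2 := (hb _ (same_rot _)).2.2.2 b1
        have e0 : (lab (M.fc g)).2 = 0 := b1
        have e1 : (lab (M.rot (M.fc g))).2 = 2 := b2
        have e2 : nq M lab (M.fc g) = M.rot (M.fc g) := by
          unfold nq
          rw [e0, if_pos (by decide), e1, if_neg (by decide)]
        refine ⟨?_, fun _ => by rw [e0]; decide⟩
        rw [hPg, hPf, e2, e1, s]
        rcases tt with tt | tt <;> rw [tt] <;> decide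
    · -- 2 → β
      have f1 := (h.face2 g hq (by rw [s]; decide)
        (by rcases tt with tt | tt <;> rw [tt] <;> decide)).resolve_left n2
      obtain ⟨p, hp, tp⟩ := h.faceIn_before f1
      have hps : (lab p).1 = (lab g).2 := by rw [← h.src_inv g, ← hp, h.src]
      have hp56 : (lab p).2 = 5 ∨ (lab p).2 = 6 := by
        have hne : (lab p).2 ≠ 2 := by
          intro hh
          refine h.rot_ne p ?_
          rw [hp, h.tgt_inv, s, hh]
        revert tp hne
        generalize (lab p).2 = i
        revert i
        decide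
      have hsame : M.rot.SameCycle (M.inv g) p := by
        have := same_rot (M := M) p
        rw [hp] at this
        exact this.symm
      rcases h.beta hqi hsx with hb | hb
      · have b1 := (hb _ (SameCycle.refl _ _)).2.2.1 (by rw [h.tgt_inv, s])
        have b2 := (hb _ (same_rot _)).2.2.2 b1
        have e0 : (lab (M.fc g)).2 = 0 := b1
        have e1 : (lab (M.rot (M.fc g))).2 = 1 := b2
        have e2 : nq M lab (M.fc g) = M.rot (M.fc g) := by
          unfold nq
          rw [e0, if_pos (by decide), e1, if_neg (by decide)]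
        refine ⟨?_, fun _ => by rw [e0]; decide⟩
        rw [hPg, hPf, e2, e1, s]
        rcases tt with tt | tt <;> rw [tt] <;> decide
      · have := (hb p hsame).2.1 hp56
        rw [hp, h.tgt_inv, s] at this
        exact absurd this (by decide)
    · exact (h.no56 hq hg (Or.inl s) tt).elim
    · exact (h.no56 hq hg (Or.inr s) tt).elim

end Side

end Pool.Agent.Lib.MP_5854e1_co.K7S
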