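import Pool.Agent.Lib.MP_5854e1_co.K7S.LocC

/-!
# The local part: every general face has a visit which is not demanding
-/

set_option autoImplicit false

open Equiv Equiv.Perm Relation

namespace Pool.Agent.Lib.MP_5854e1_co.K7S

open Crc

namespace Side

variable {D : Type*} [Fintype D] {M : CMap D} {lab : D → Fin 7 × Fin 7} {e : D}

/-- a leg: a dart from `0 3 4` to `1 2 5 6` -/
def Leg (lab : D → Fin 7 × Fin 7) (l : D) : Prop := T0 (lab l).1 ∧ ¬ T0 (lab l).2

/-- the sign of a leg -/
def Sg (M : CMap D) (lab : D → Fin 7 × Fin 7) (l : D) : Prop := Plus M lab (M.rot (M.inv l))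

/-- `l'` is the leg before `l` on the contour of a circle -/
def Prev (M : CMap D) (lab : D → Fin 7 × Fin 7) (l' l : D) : Prop :=
  Leg lab l' ∧ (M.rot l' = l ∨ ∃ k, T0 (lab k).2 ∧ M.rot l' = k ∧ M.rot (M.inv k) = l)

/-- the demanding pairs -/
def Pair (M : CMap D) (lab : D → Fin 7 × Fin 7) (l' l : D) : Prop :=
  (Sg M lab l' ∧ Sg M lab l ∧ (lab l').2 = 1 ∧ (lab l).2 = 2) ∨
  (¬ Sg M lab l' ∧ ¬ Sg M lab l ∧ (lab l').2 = 2 ∧ (lab l).2 = 1) ∨
  (¬ Sg M lab l' ∧ Sg M lab l)

/-- `l` is a demanding leg -/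
def Dem (M : CMap D) (lab : D → Fin 7 × Fin 7) (l : D) : Prop :=
  Leg lab l ∧ ¬ XV M l ∧ ∃ l', Prev M lab l' l ∧ Pair M lab l' l

omit [Fintype D] in
theorem fc_iter_same (x : D) (n : ℕ) : M.fc.SameCycle x (M.fc^[n] x) :=
  ⟨n, by rw [zpow_natCast, Equiv.Perm.coe_pow]⟩

theorem exists_iter {x y : D} (hxy : M.fc.SameCycle x y) : ∃ n, M.fc^[n] x = y := by
  obtain ⟨i, -, hi⟩ := sameCycle_iterate M.fc hxy
  exact ⟨i, hi⟩

variable (h : Side M lab e)

include h

omit h in
theorem q_iter {x : D} (hq : EqvGen M.rel e x) (n : ℕ) : EqvGen M.rel e (M.fc^[n] x) := by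
  induction n with
  | zero => exact hq
  | succ n ih => rw [Function.iterate_succ_apply', q_fc]; exact ih

omit h in
theorem gen_iter {x : D} (hg : Gen M lab x) (n : ℕ) : Gen M lab (M.fc^[n] x) := by
  induction n with
  | zero => exact hg
  | succ n ih => rw [Function.iterate_succ_apply', gen_fc]; exact ih

/-- along the arc from `d` on: the next dart into `0 3 4` has the same sign -/
theorem arc {d : D} (hq : EqvGen M.rel e d) (hg : Gen M lab d) (hs : ¬ T0 (lab d).1) :
    ∃ n, T0 (lab (M.fc^[n] d)).2 ∧ ¬ T0 (lab (M.fc^[n] d)).1 ∧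
      (Plus M lab (M.fc^[n] d) ↔ Plus M lab d) ∧ ∀ i < n, ¬ T0 (lab (M.fc^[i] d)).2 := by
  classical
  have hex : ∃ n, T0 (lab (M.fc^[n] d)).2 := by
    obtain ⟨y, hy, h0⟩ := hg
    obtain ⟨n, rfl⟩ := exists_iter hy
    cases n with
    | zero => exact absurd h0 hs
    | succ n =>
      refine ⟨n, ?_⟩
      rw [Function.iterate_succ_apply', h.src_fc] at h0
      exact h0
  refine ⟨Nat.find hex, Nat.find_spec hex, ?_, ?_, fun i hi => Nat.find_min hex hi⟩
  · cases hn : Nat.find hex with
    | zero => exact hs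
    | succ n =>
      rw [Function.iterate_succ_apply', h.src_fc]
      exact Nat.find_min hex (by omega)
  · have key : ∀ i ≤ Nat.find hex, ¬ T0 (lab (M.fc^[i] d)).1 ∧
        (Plus M lab (M.fc^[i] d) ↔ Plus M lab d) := by
      intro i
      induction i with
      | zero => exact fun _ => ⟨hs, Iff.rfl⟩
      | succ i ih =>
        intro hi
        have h1 := ih (by omega)
        have h2 : ¬ T0 (lab (M.fc^[i] d)).2 := Nat.find_min hex (by omega)
        rw [Function.iterate_succ_apply']
        refine ⟨by rw [h.src_fc]; exact h2, ?_⟩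
        rw [(h.plus_fc (q_iter hq i) (gen_iter hg i) h1.1 h2).1]
        exact h1.2
    exact (key _ le_rfl).2

/-- from a leg: the next dart into `0 3 4` -/
theorem arc_leg {l : D} (hl : Leg lab l) (hq : EqvGen M.rel e l) :
    ∃ n, T0 (lab (M.fc^[n + 1] l)).2 ∧ ¬ T0 (lab (M.fc^[n + 1] l)).1 ∧
      (Plus M lab (M.fc^[n + 1] l) ↔ Sg M lab l) ∧
      (Sg M lab l → (lab l).2 = 2 → (lab (M.fc^[n + 1] l)).1 ≠ 1) ∧
      (¬ Sg M lab l → (lab l).2 = 1 → (lab (M.fc^[n + 1] l)).1 ≠ 2) := by
  have hg0 : Gen M lab l := ⟨l, SameCycle.refl _ _, hl.1⟩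
  have hg : Gen M lab (M.fc l) := gen_fc.2 hg0
  have hq1 : EqvGen M.rel e (M.fc l) := (q_fc l).2 hq
  have hs1 : ¬ T0 (lab (M.fc l)).1 := by rw [h.src_fc]; exact hl.2
  obtain ⟨n, h1, h2, h3, h4⟩ := h.arc hq1 hg hs1
  refine ⟨n, ?_, ?_, ?_, ?_, ?_⟩
  · rw [Function.iterate_succ_apply]; exact h1
  · rw [Function.iterate_succ_apply]; exact h2
  · rw [Function.iterate_succ_apply]; exact h3
  · intro hsg ht hh
    rw [Function.iterate_succ_apply] at hh
    cases n with
    | zero =>
      have : (lab (M.fc l)).1 = 1 := hh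
      rw [h.src_fc, ht] at this
      exact absurd this (by decide)
    | succ n =>
      have h5 : ¬ T0 (lab (M.fc l)).2 := h4 0 (Nat.succ_pos n)
      have h6 : ps (lab (M.fc l)).1 (lab (M.fc l)).2 := by
        have : Plus M lab (M.fc l) := hsg
        unfold Plus at this
        rwa [nq_self h5] at this
      rw [h.src_fc, ht] at h6
      have h7 : (lab (M.fc l)).2 = 5 ∨ (lab (M.fc l)).2 = 6 := by
        revert h6
        generalize (lab (M.fc l)).2 = i
        revert i
        decide
      have h8 := (h.plus_fc hq1 hg hs1 h5).2 h7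
      cases n with
      | zero =>
        have : (lab (M.fc (M.fc l))).1 = 1 := hh
        rw [h.src_fc] at this
        rw [this] at h7
        exact absurd h7 (by decide)
      | succ n => exact h4 1 (by omega) h8
  · intro hsg ht hh
    rw [Function.iterate_succ_apply] at hh
    cases n with
    | zero =>
      have : (lab (M.fc l)).1 = 2 := hh
      rw [h.src_fc, ht] at this
      exact absurd this (by decide)
    | succ n =>
      have h5 : ¬ T0 (lab (M.fc l)).2 := h4 0 (Nat.succ_pos n)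
      have h6 : ¬ ps (lab (M.fc l)).1 (lab (M.fc l)).2 := by
        have : ¬ Plus M lab (M.fc l) := hsg
        unfold Plus at this
        rwa [nq_self h5] at this
      have h9 := h.nadj (x := M.fc l)
      rw [h.src_fc, ht] at h6 h9
      have h7 : (lab (M.fc l)).2 = 5 ∨ (lab (M.fc l)).2 = 6 := by
        revert h6 h5 h9
        generalize (lab (M.fc l)).2 = i
        revert i
        decide
      have h8 := (h.plus_fc hq1 hg hs1 h5).2 h7
      cases n with
      | zero =>
        have : (lab (M.fc (M.fc l))).1 = 2 := hh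
        rw [h.src_fc] at this
        rw [this] at h7
        exact absurd h7 (by decide)
      | succ n => exact h4 1 (by omega) h8

/-- no demanding leg is reached in another way than through the leg before it -/
theorem visit {x : D} (ht : T0 (lab x).2) (hs : ¬ T0 (lab x).1) :
    ∃ m, Leg lab (M.fc^[m + 1] x) ∧ (Dem M lab (M.fc^[m + 1] x) → Pair M lab (M.inv x) (M.fc^[m + 1] x)) := by
  classical
  have hg : Gen M lab x := ⟨M.fc x, ⟨1, by simp⟩, by rw [h.src_fc]; exact ht⟩
  have hex : ∃ m, ¬ T0 (lab (M.fc^[m + 1] x)).2 := by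
    obtain ⟨n, hn⟩ := exists_iter (M := M) (x := M.fc x) (y := x) (SameCycle.symm ⟨1, by simp⟩)
    cases n with
    | zero =>
      have : M.fc x = x := hn
      have h1 := h.src_fc x
      rw [this] at h1
      exact absurd h1 h.nadj
    | succ n =>
      refine ⟨n, ?_⟩
      rw [Function.iterate_succ_apply', ← Function.iterate_succ_apply] at hn
      have h1 := h.src_fc (M.fc^[n + 1] x)
      rw [hn] at h1
      rw [← h1]
      exact hs
  set m := Nat.find hex with hm
  have hmin : ∀ i < m, T0 (lab (M.fc^[i + 1] x)).2 := fun i hi => by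
    by_contra hh
    exact Nat.find_min hex hi hh
  have hsrc : ∀ i ≤ m, T0 (lab (M.fc^[i + 1] x)).1 := by
    intro i hi
    rw [Function.iterate_succ_apply', h.src_fc]
    cases i with
    | zero => exact ht
    | succ i => exact hmin i (by omega)
  refine ⟨m, ⟨hsrc m le_rfl, Nat.find_spec hex⟩, ?_⟩
  rintro ⟨hl, hxv, l', hp, hpair⟩
  -- the dart before
  have hrot : M.rot (M.inv (M.fc^[m] x)) = M.fc^[m + 1] x := by
    rw [Function.iterate_succ_apply']; rfl
  suffices l' = M.inv x by rw [← this]; exact hpair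
  obtain ⟨hl', hp⟩ := hp
  cases hm0 : m with
  | zero =>
    rw [hm0] at hrot hp
    rcases hp with hp | ⟨k, hk, hk1, hk2⟩
    · exact M.rot.injective (hp.trans hrot.symm)
    · exfalso
      have : M.inv k = M.inv x := M.rot.injective (hk2.trans hrot.symm)
      have hkx : k = x := M.inv.injective this
      rw [hkx] at hk1
      have := h.src l'
      rw [hk1] at this
      exact hs (this ▸ hl'.1)
  | succ n =>
    rw [hm0] at hrot hp hxv
    set k0 := M.fc^[n + 1] x with hk0
    have tk0 : T0 (lab k0).2 := hmin n (by omega)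
    have sk0 : T0 (lab k0).1 := hsrc n (by omega)
    have hrk : M.rot (M.inv (M.fc^[n] x)) = k0 := by
      rw [hk0, Function.iterate_succ_apply']; rfl
    rcases hp with hp | ⟨k, hk, hk1, hk2⟩
    · exfalso
      have : l' = M.inv k0 := M.rot.injective (hp.trans hrot.symm)
      apply hl'.2
      rw [this, h.tgt_inv]
      exact sk0
    · have hkk : k = k0 := M.inv.injective (M.rot.injective (hk2.trans hrot.symm))
      have hl'2 : l' = M.inv (M.fc^[n] x) := M.rot.injective (hk1.trans (hkk.trans hrk.symm))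
      cases n with
      | zero => exact hl'2
      | succ n =>
        exfalso
        -- then `k1 = fc^[n+1] x` is also a dart between `0 3 4`
        apply hl'.2
        rw [hl'2, h.tgt_inv]
        exact hsrc n (by omega)

/-- **Every general face has a leg which is not demanding.** -/
theorem exists_not_dem {l0 : D} (hl0 : Leg lab l0) (hq0 : EqvGen M.rel e l0) :
    ∃ l, M.fc.SameCycle l0 l ∧ Leg lab l ∧ ¬ Dem M lab l := by
  by_contra hno
  push Not at hno
  -- the next leg
  have step : ∀ l, M.fc.SameCycle l0 l → Leg lab l → ∃ l2, M.fc.SameCycle l0 l2 ∧ Leg lab l2 ∧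
      (Sg M lab l → Sg M lab l2 ∧ (lab l2).2 = 2 ∧ (lab l).2 ≠ 2) ∧ (¬ Sg M lab l → Sg M lab l2) := by
    intro l hc hl
    have hd : Dem M lab l := hno l hc hl
    have hq : EqvGen M.rel e l := by
      obtain ⟨n, rfl⟩ := exists_iter hc
      exact q_iter hq0 n
    obtain ⟨n, a1, a2, a3, a4, a5⟩ := h.arc_leg hl hq
    obtain ⟨m, b1, b2⟩ := h.visit a1 a2
    have hc2 : M.fc.SameCycle l0 (M.fc^[m + 1] (M.fc^[n + 1] l)) :=
      (hc.trans (fc_iter_same _ _)).trans (fc_iter_same _ _)
    have hpair := b2 (hno _ hc2 b1)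
    -- the sign of `inv x`
    have hsg : Sg M lab (M.inv (M.fc^[n + 1] l)) ↔ Sg M lab l := by
      unfold Sg
      rw [M.inv_inv, h.plus_rot a1]
      exact a3
    refine ⟨_, hc2, b1, ?_, ?_⟩
    · intro hs
      rcases hpair with ⟨-, p2, p3, p4⟩ | ⟨p1, -⟩ | ⟨p1, -⟩
      · refine ⟨p2, p4, fun ht => a4 hs ht ?_⟩
        rw [← h.tgt_inv]
        exact p3
      · exact absurd (hsg.2 hs) p1
      · exact absurd (hsg.2 hs) p1
    · intro hs
      rcases hpair with ⟨p1, -⟩ | ⟨-, -, p3, -⟩ | ⟨-, p2⟩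
      · exact absurd (hsg.1 p1) hs
      · exfalso
        obtain ⟨-, -, l', -, hP⟩ := hd
        rcases hP with ⟨-, r2, -⟩ | ⟨-, -, -, r4⟩ | ⟨-, r2⟩
        · exact hs r2
        · refine a5 hs r4 ?_
          rw [← h.tgt_inv]
          exact p3
        · exact hs r2
      · exact p2
  obtain ⟨l1, c1, g1, s1, s1'⟩ := step l0 (SameCycle.refl _ _) hl0
  have hs1 : Sg M lab l1 := by
    by_cases hs : Sg M lab l0
    · exact (s1 hs).1
    · exact s1' hs
  obtain ⟨l2, c2, g2, s2, -⟩ := step l1 c1 g1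
  obtain ⟨l3, c3, g3, s3, -⟩ := step l2 c2 g2
  exact (s3 (s2 hs1).1).2.2 (s2 hs1).2.1

end Side

end Pool.Agent.Lib.MP_5854e1_co.K7S
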