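import Pool.Agent.Lib.MP_5854e1_co.K7S.LocD

/-!
# The local part: faces in `0 3 4` and faces in `1 2 5 6`
-/

set_option autoImplicit false

open Equiv Equiv.Perm Relation

namespace Pool.Agent.Lib.MP_5854e1_co.K7S

open Crc

namespace Side

variable {D : Type*} [Fintype D] {M : CMap D} {lab : D → Fin 7 × Fin 7} {e : D}

/-- the corner between the darts to `5` and `6` at a vertex over `1` or `2` -/
def Spc (M : CMap D) (lab : D → Fin 7 × Fin 7) (y : D) : Prop :=
  ((lab y).1 = 1 ∨ (lab y).1 = 2) ∧ ((lab y).2 = 5 ∨ (lab y).2 = 6) ∧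
    ((lab (M.rot⁻¹ y)).2 = 5 ∨ (lab (M.rot⁻¹ y)).2 = 6)

theorem e156 : ∀ i j l : Fin 7, (i = 5 ∨ i = 6) → (j = 5 ∨ j = 6) → i ≠ j → T1 l → l ≠ i →
    j ≠ l → l = 1 := by decide

theorem e256 : ∀ i j l : Fin 7, (i = 5 ∨ i = 6) → (j = 5 ∨ j = 6) → i ≠ j → T2 l → l ≠ i →
    j ≠ l → l = 2 := by decide

theorem e56 : ∀ l m : Fin 7, ((l = 1 ∧ T1 m) ∨ (l = 2 ∧ T2 m)) → l ≠ m → m = 5 ∨ m = 6 := by decide

variable (h : Side M lab e)

include h

/-- a face without vertices over `0 3 4` has a special corner -/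
theorem exists_spc {x : D} (hq : EqvGen M.rel e x) (hx : ¬ Gen M lab x) :
    ∃ y, M.fc.SameCycle x y ∧ Spc M lab y := by
  have hsrc : ∀ n, ¬ T0 (lab (M.fc^[n] x)).1 := fun n hh => hx ⟨_, fc_iter_same _ _, hh⟩
  have htgt : ∀ n, ¬ T0 (lab (M.fc^[n] x)).2 := fun n hh =>
    hsrc (n + 1) (by rw [Function.iterate_succ_apply', h.src_fc]; exact hh)
  -- the next dart is not the inverse
  have hne : ∀ n, (lab (M.fc^[n + 1] x)).2 ≠ (lab (M.fc^[n] x)).1 := by
    intro n hh
    refine h.rot_ne (M.inv (M.fc^[n] x)) ?_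
    rw [h.tgt_inv, ← hh, Function.iterate_succ_apply']
    rfl
  have hs : ∀ n, (lab (M.fc^[n + 1] x)).1 = (lab (M.fc^[n] x)).2 := by
    intro n
    rw [Function.iterate_succ_apply', h.src_fc]
  -- a dart with target 5 or 6
  obtain ⟨n, hn⟩ : ∃ n, (lab (M.fc^[n] x)).2 = 5 ∨ (lab (M.fc^[n] x)).2 = 6 := by
    by_contra hno
    push Not at hno
    have k : ∀ n, (lab (M.fc^[n] x)).2 = 1 ∨ (lab (M.fc^[n] x)).2 = 2 := by
      intro n
      rcases not_T0 _ (htgt n) with hh | hh | hh | hh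
      · exact Or.inl hh
      · exact Or.inr hh
      · exact absurd hh (hno n).1
      · exact absurd hh (hno n).2
    have k0 := k 0
    have k1 := k 1
    have k2 := k 2
    have n1 := hne 1
    have s1 := hs 0
    have a1 := h.nadj (x := M.fc^[1] x)
    have a2 := h.nadj (x := M.fc^[2] x)
    have s2 := hs 1
    rw [s1] at n1
    rw [s1] at a1
    rw [s2] at a2
    revert k0 k1 k2 n1 a1 a2
    show ((lab (M.fc^[0] x)).2 = 1 ∨ (lab (M.fc^[0] x)).2 = 2) →
      ((lab (M.fc^[1] x)).2 = 1 ∨ (lab (M.fc^[1] x)).2 = 2) →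
      ((lab (M.fc^[2] x)).2 = 1 ∨ (lab (M.fc^[2] x)).2 = 2) →
      (lab (M.fc^[2] x)).2 ≠ (lab (M.fc^[0] x)).2 → (lab (M.fc^[0] x)).2 ≠ (lab (M.fc^[1] x)).2 →
      (lab (M.fc^[1] x)).2 ≠ (lab (M.fc^[2] x)).2 → False
    generalize (lab (M.fc^[0] x)).2 = i
    generalize (lab (M.fc^[1] x)).2 = j
    generalize (lab (M.fc^[2] x)).2 = k
    revert i j k
    decide
  set g := M.fc^[n] x with hg
  have hgx : M.fc.SameCycle x g := fc_iter_same _ _
  have hgq : EqvGen M.rel e g := q_iter hq n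
  have e1 : M.fc^[n + 1] x = M.fc g := Function.iterate_succ_apply' _ _ _
  have hcnot : ¬ M.c g := fun hc => hsrc n (h.cT g hc).1
  have hqi : EqvGen M.rel e (M.inv g) := (h.q_inv hcnot).2 hgq
  have hsx : (lab (M.inv g)).1 = 5 ∨ (lab (M.inv g)).1 = 6 := by rw [h.src_inv]; exact hn
  have hft : ¬ T0 (lab (M.fc g)).2 := by rw [← e1]; exact htgt (n + 1)
  -- a dart of the face over 5 6
  obtain ⟨k, hkx, k1, k2⟩ : ∃ k, M.fc.SameCycle x k ∧ ((lab k).1 = 5 ∨ (lab k).1 = 6) ∧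
      ((lab k).2 = 5 ∨ (lab k).2 = 6) := by
    by_cases hgs : (lab g).1 = 5 ∨ (lab g).1 = 6
    · exact ⟨g, hgx, hgs, hn⟩
    · refine ⟨M.fc g, hgx.trans ⟨1, by simp⟩, by rw [h.src_fc]; exact hn, ?_⟩
      have hti := h.tgt_inv g
      push Not at hgs
      rcases h.beta hqi hsx with hb | hb
      · obtain ⟨b1, b2, b3, b4⟩ := hb _ (SameCycle.refl _ _)
        rcases not_T0 _ (hsrc n) with hh | hh | hh | hh
        · exact b1 (hti.trans hh)
        · exact absurd (show T0 (lab (M.fc g)).2 by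
            rw [show (lab (M.fc g)).2 = 0 from b3 (hti.trans hh)]; decide) hft
        · exact absurd hh hgs.1
        · exact absurd hh hgs.2
      · obtain ⟨b1, b2, b3, b4⟩ := hb _ (SameCycle.refl _ _)
        rcases not_T0 _ (hsrc n) with hh | hh | hh | hh
        · exact absurd (show T0 (lab (M.fc g)).2 by
            rw [show (lab (M.fc g)).2 = 0 from b3 (hti.trans hh)]; decide) hft
        · exact b1 (hti.trans hh)
        · exact absurd hh hgs.1
        · exact absurd hh hgs.2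
  have hkq : EqvGen M.rel e k := by
    obtain ⟨i, rfl⟩ := exists_iter hkx
    exact q_iter hq i
  -- the face of `k` is in `T1` or `T2`
  have hface : FaceIn M lab T1 k ∨ FaceIn M lab T2 k := by
    have t1 : ∀ i : Fin 7, i = 5 ∨ i = 6 → T1 i ∧ T2 i := by decide
    rcases h.face1 k hkq (t1 _ k1).1 (t1 _ k2).1 with f1 | f1
    · exact Or.inl f1
    · rcases h.face2 k hkq (t1 _ k1).2 (t1 _ k2).2 with f2 | f2
      · exact Or.inr f2
      · exfalso
        have r1 := h.faceIn_rot f1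
        have r2 := h.faceIn_rot f2
        rw [M.inv_inv] at r1 r2
        have : ∀ i : Fin 7, T1 i → T2 i → i = 5 ∨ i = 6 := by decide
        exact h.rot_ne k (congrArg (fun d => (lab d).2)
          (h.beta_unique (same_rot k) k1 k2 (this _ r1 r2)).symm)
  -- two steps further
  have d1 : (lab (M.fc k)).1 = (lab k).2 := h.src_fc k
  have d2 : (lab (M.fc (M.fc k))).1 = (lab (M.fc k)).2 := h.src_fc _
  have m1 : (lab (M.fc k)).2 ≠ (lab k).1 := by
    intro hh
    refine h.rot_ne (M.inv k) ?_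
    rw [h.tgt_inv, ← hh]
    rfl
  have a1 : (lab k).2 ≠ (lab (M.fc k)).2 := by rw [← d1]; exact h.nadj
  have a2 : (lab (M.fc k)).2 ≠ (lab (M.fc (M.fc k))).2 := by rw [← d2]; exact h.nadj
  have a0 : (lab k).1 ≠ (lab k).2 := h.nadj
  have hrot : M.rot⁻¹ (M.fc (M.fc k)) = M.inv (M.fc k) := by
    rw [Equiv.Perm.inv_eq_iff_eq, fc_eq (M.fc k)]
  refine ⟨M.fc (M.fc k), hkx.trans (fc_iter_same k 2), ?_⟩
  unfold Spc
  rw [hrot, h.tgt_inv, d2, d1]
  rcases hface with hf | hf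
  · have u1 := (faceIn_self (faceIn_fc hf)).2
    have u2 := (faceIn_self (faceIn_fc (faceIn_fc hf))).2
    have l1 := e156 _ _ _ k1 k2 a0 u1 m1 a1
    exact ⟨Or.inl l1, e56 _ _ (Or.inl ⟨l1, u2⟩) a2, k2⟩
  · have u1 := (faceIn_self (faceIn_fc hf)).2
    have u2 := (faceIn_self (faceIn_fc (faceIn_fc hf))).2
    have l1 := e256 _ _ _ k1 k2 a0 u1 m1 a1
    exact ⟨Or.inr l1, e56 _ _ (Or.inr ⟨l1, u2⟩) a2, k2⟩

/-- the circle itself does not bound a face in the side -/
theorem not_emp {x : D} (hq : EqvGen M.rel e x) (hf : FaceIn M lab T0 x) : ¬ M.c x := by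
  intro hc
  -- all the darts of the face are circle darts
  have key : ∀ n, M.c (M.th^[n] x) ∧ M.th^[n] x = M.fc^[n] x := by
    intro n
    induction n with
    | zero => exact ⟨hc, rfl⟩
    | succ n ih =>
      have h1 : M.th (M.th^[n] x) = M.fc (M.th^[n] x) := by
        rw [M.th_F ((h.Fc _).2 ih.1)]; rfl
      have h2 : M.th^[n + 1] x = M.fc^[n + 1] x := by
        rw [Function.iterate_succ_apply', Function.iterate_succ_apply', h1, ih.2]
      refine ⟨?_, h2⟩
      rw [h2, Function.iterate_succ_apply', ← ih.2]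
      refine h.cx (M.inv (M.th^[n] x)) _ ((M.c_inv _).2 ih.1) (same_rot _) ?_
      have := (hf _ (fc_iter_same x (n + 1))).2
      rw [Function.iterate_succ_apply', ← ih.2] at this
      exact this
  have hE : M.Emp x := by
    intro y hy
    obtain ⟨i, -, rfl⟩ := sameCycle_iterate M.th hy
    exact (h.Fc _).2 (key i).1
  obtain ⟨z, hz, hzc⟩ := h.nonemp
  have h1 : EqvGen M.rel x z := (hq.symm).trans _ _ _ hz
  have h2 := M.eqv_emp hE h1
  exact hzc ((h.Fc _).1 (hE z h2))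

end Side

end Pool.Agent.Lib.MP_5854e1_co.K7S
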