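import Pool.Agent.Lib.MP_5854e1_co.K7S.LocE

/-!
# The local part: every leaf circle has a demanding leg
-/

set_option autoImplicit false

open Equiv Equiv.Perm Relation

namespace Pool.Agent.Lib.MP_5854e1_co.K7S

open Crc

namespace Side

variable {D : Type*} [Fintype D] {M : CMap D} {lab : D → Fin 7 × Fin 7} {e : D}

theorem t0_two (i j k l : Fin 7) (hi : T0 i) (hj : T0 j) (hk : T0 k) (hl : T0 l)
    (a1 : K7C4.Adj i j) (a2 : K7C4.Adj i k) (a3 : K7C4.Adj i l) (hjk : j ≠ k) :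
    l = j ∨ l = k := by
  have b1 := a1.1
  have b2 := a2.1
  have b3 := a3.1
  clear a1 a2 a3
  rcases hi with rfl | rfl | rfl <;> rcases hj with rfl | rfl | rfl <;>
    rcases hk with rfl | rfl | rfl <;> rcases hl with rfl | rfl | rfl <;> simp_all

theorem t0_card : ∀ i : Fin 7, (i = 3 ∨ i = 4) →
    (Finset.univ.filter (fun j => K7C4.Adj i j)).card = 4 := by decide

theorem t0_leg : ∀ i j : Fin 7, (i = 3 ∨ i = 4) → K7C4.Adj i j → ¬ T0 j → j = 1 ∨ j = 2 := by decide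

variable (h : Side M lab e)

include h

/-- the two darts at the vertex of `k` over `0 3 4`, if the face of `k` is over `0 3 4` -/
theorem t0_darts {k d : D} (hf : FaceIn M lab T0 (M.fc k)) (hs : T0 (lab k).1)
    (hd : M.rot.SameCycle (M.fc k) d) (ht : T0 (lab d).2) : d = M.fc k ∨ d = M.inv k := by
  have h1 : M.rot.SameCycle (M.fc k) (M.inv k) := (same_rot (M.inv k)).symm
  have f1 := faceIn_self hf
  have a1 := h.adj (M.fc k)
  have a2 := h.adj_src h1
  have a3 := h.adj_src hd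
  have n1 : (lab (M.fc k)).2 ≠ (lab (M.inv k)).2 := h.rot_ne (M.inv k)
  have t2 : T0 (lab (M.inv k)).2 := by rw [h.tgt_inv]; exact hs
  rcases t0_two _ _ _ _ f1.1 f1.2 t2 ht a1 a2 a3 n1 with h2 | h2
  · exact Or.inl (h.inj _ _ hd.symm h2)
  · exact Or.inr (h.inj _ _ (hd.symm.trans h1) h2)

theorem iter_leg {k : D} (hf : FaceIn M lab T0 (M.fc k)) (hs : T0 (lab k).1) {i : ℕ} (h0 : 0 < i)
    (hi : i + 1 < Function.minimalPeriod M.rot (M.fc k)) : Leg lab (M.rot^[i] (M.fc k)) := by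
  have hsame : M.rot.SameCycle (M.fc k) (M.rot^[i] (M.fc k)) :=
    ⟨i, by rw [zpow_natCast, Equiv.Perm.coe_pow]⟩
  refine ⟨?_, fun ht => ?_⟩
  · rw [← h.src_same hsame]; exact (faceIn_self hf).1
  · rcases h.t0_darts hf hs hsame ht with h1 | h1
    · exact h.iter_ne h0 (by omega) h1
    · refine h.iter_ne (x := M.fc k) (k := i + 1) (by omega) hi ?_
      rw [Function.iterate_succ_apply', h1]
      rfl

/-- the last leg is followed by `inv k` -/
theorem iter_last {k : D} {i : ℕ}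
    (hi : i + 1 = Function.minimalPeriod M.rot (M.fc k)) : M.rot^[i] (M.fc k) = M.inv k := by
  have h1 : M.rot^[i + 1] (M.fc k) = M.fc k := by
    rw [hi]
    exact Function.isPeriodicPt_minimalPeriod _ _
  rw [Function.iterate_succ_apply'] at h1
  exact M.rot.injective h1

/-- **Every leaf circle has a demanding leg.** -/
theorem exists_dem {x : D} (hq : EqvGen M.rel e x) (hf : FaceIn M lab T0 x) :
    ∃ k, M.fc.SameCycle x k ∧ ∃ l, M.rot.SameCycle k l ∧ Dem M lab l := by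
  by_contra hno
  push Not at hno
  have hF : ∀ k, M.fc.SameCycle x k → FaceIn M lab T0 k := fun k hk y hy => hf y (hk.trans hy)
  have hQ : ∀ k, M.fc.SameCycle x k → EqvGen M.rel e k := fun k hk => by
    obtain ⟨n, rfl⟩ := exists_iter hk
    exact q_iter hq n
  have hX : ∀ k, M.fc.SameCycle x k → ¬ XV M k := fun k hk hh =>
    h.not_emp (hQ k hk) (hF k hk) (h.c_of_xv hh (faceIn_self (hF k hk)).2)
  have hfc : ∀ k, M.fc.SameCycle x k → M.fc.SameCycle x (M.fc k) := fun k hk =>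
    hk.trans ⟨1, by simp⟩
  have hcyc : ∀ k i, M.rot.SameCycle k (M.rot^[i] k) := fun k i =>
    ⟨i, by rw [zpow_natCast, Equiv.Perm.coe_pow]⟩
  -- no demanding pair
  have hnp : ∀ k, M.fc.SameCycle x k → ∀ l' l, M.rot.SameCycle k l → Leg lab l → Prev M lab l' l →
      ¬ Pair M lab l' l := fun k hk l' l hl hleg hp hpair =>
    hno k hk l hl ⟨hleg, fun hh => hX k hk ((xv_same hl).2 hh), l', hp, hpair⟩
  -- the pairs at one vertex
  have p1 : ∀ k, M.fc.SameCycle x k → ∀ i, 0 < i →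
      i + 2 < Function.minimalPeriod M.rot (M.fc k) →
      ¬ Pair M lab (M.rot^[i] (M.fc k)) (M.rot^[i + 1] (M.fc k)) := by
    intro k hk i h0 hi
    refine hnp (M.fc k) (hfc k hk) _ _ (hcyc _ _)
      (h.iter_leg (hF _ (hfc k hk)) (faceIn_self (hF k hk)).1 (Nat.succ_pos i) (by omega))
      ⟨h.iter_leg (hF _ (hfc k hk)) (faceIn_self (hF k hk)).1 h0 (by omega), Or.inl ?_⟩
    rw [Function.iterate_succ_apply']
  -- the pair at the end of `k`
  have p2 : ∀ k, M.fc.SameCycle x k → ∀ i,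
      i + 2 = Function.minimalPeriod M.rot (M.fc (M.fc k)) →
      ¬ Pair M lab (M.rot^[i] (M.fc (M.fc k))) (M.rot (M.fc k)) := by
    intro k hk i hi
    have hk1 := hfc k hk
    have hk2 := hfc _ hk1
    have hper := h.per_ge (M.fc (M.fc k))
    have hper1 := h.per_ge (M.fc k)
    refine hnp (M.fc k) hk1 _ _ (same_rot _)
      (h.iter_leg (i := 1) (hF _ hk1) (faceIn_self (hF k hk)).1 one_pos (by omega))
      ⟨h.iter_leg (hF _ hk2) (faceIn_self (hF _ hk1)).1 (by omega) (by omega),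
        Or.inr ⟨M.inv (M.fc k), ?_, ?_, ?_⟩⟩
    · rw [h.tgt_inv]; exact (faceIn_self (hF _ hk1)).1
    · rw [← Function.iterate_succ_apply' M.rot]
      exact h.iter_last (by omega)
    · rw [M.inv_inv]
  -- negative signs propagate
  have n1 : ∀ k, M.fc.SameCycle x k → ∀ i, 0 < i →
      i + 1 < Function.minimalPeriod M.rot (M.fc k) → ¬ Sg M lab (M.rot^[i] (M.fc k)) →
      ∀ j, i ≤ j → j + 1 < Function.minimalPeriod M.rot (M.fc k) →
      ¬ Sg M lab (M.rot^[j] (M.fc k)) := by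
    intro k hk i h0 hi hs j hij
    induction j, hij using Nat.le_induction with
    | base => exact fun _ => hs
    | succ j hj ih =>
      intro hj2 hh
      exact p1 k hk j (by omega) (by omega) (Or.inr (Or.inr ⟨ih (by omega), hh⟩))
  have n2 : ∀ k, M.fc.SameCycle x k → ∀ i, 0 < i →
      i + 1 < Function.minimalPeriod M.rot (M.fc (M.fc k)) →
      ¬ Sg M lab (M.rot^[i] (M.fc (M.fc k))) → ¬ Sg M lab (M.rot (M.fc k)) := by
    intro k hk i h0 hi hs hh
    have h1 := n1 (M.fc k) (hfc k hk) i h0 hi hs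
      (Function.minimalPeriod M.rot (M.fc (M.fc k)) - 2) (by omega) (by omega)
    exact p2 k hk _ (by omega) (Or.inr (Or.inr ⟨h1, hh⟩))
  -- the sign of the first leg is constant
  have n3 : ∀ n k, M.fc.SameCycle x k → ¬ Sg M lab (M.rot (M.fc (M.fc^[n] k))) →
      ¬ Sg M lab (M.rot (M.fc k)) := by
    intro n
    induction n with
    | zero => exact fun k _ hh => hh
    | succ n ih =>
      intro k hk hh
      rw [Function.iterate_succ_apply] at hh
      have h1 := ih (M.fc k) (hfc k hk) hh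
      refine n2 k hk 1 one_pos ?_ h1
      have := h.per_ge (M.fc (M.fc k))
      omega
  -- a dart over `34`
  obtain ⟨k, hk, k1, k2⟩ : ∃ k, M.fc.SameCycle x k ∧ ((lab (M.fc k)).1 = 3 ∨ (lab (M.fc k)).1 = 4) ∧
      ((lab (M.fc k)).2 = 3 ∨ (lab (M.fc k)).2 = 4) := by
    have hc1 := hfc x (SameCycle.refl _ _)
    have hc2 := hfc _ hc1
    have d2 : (lab (M.fc (M.fc x))).1 = (lab (M.fc x)).2 := h.src_fc _
    have d3 : (lab (M.fc (M.fc (M.fc x)))).1 = (lab (M.fc (M.fc x))).2 := h.src_fc _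
    have m2 : (lab (M.fc (M.fc x))).2 ≠ (lab (M.fc x)).1 := by
      intro hh
      refine h.rot_ne (M.inv (M.fc x)) ?_
      rw [h.tgt_inv, ← hh]
      rfl
    have m3 : (lab (M.fc (M.fc (M.fc x)))).2 ≠ (lab (M.fc x)).2 := by
      intro hh
      refine h.rot_ne (M.inv (M.fc (M.fc x))) ?_
      rw [h.tgt_inv, d2, ← hh]
      rfl
    have f1 := faceIn_self (hF _ hc1)
    have f2 := faceIn_self (hF _ hc2)
    have f3 := faceIn_self (hF _ (hfc _ hc2))
    have a1 : (lab (M.fc x)).1 ≠ (lab (M.fc x)).2 := h.nadj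
    have a2 : (lab (M.fc x)).2 ≠ (lab (M.fc (M.fc x))).2 := by rw [← d2]; exact h.nadj
    have a3 : (lab (M.fc (M.fc x))).2 ≠ (lab (M.fc (M.fc (M.fc x)))).2 := by
      rw [← d3]; exact h.nadj
    have key : ∀ a b c d : Fin 7, T0 a → T0 b → T0 c → T0 d → a ≠ b → b ≠ c → c ≠ a → c ≠ d →
        d ≠ b → ((a = 3 ∨ a = 4) ∧ (b = 3 ∨ b = 4)) ∨ ((b = 3 ∨ b = 4) ∧ (c = 3 ∨ c = 4)) ∨
        ((c = 3 ∨ c = 4) ∧ (d = 3 ∨ d = 4)) := by
      intro a b c d ha hb hc hd
      rcases ha with rfl | rfl | rfl <;> rcases hb with rfl | rfl | rfl <;>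
        rcases hc with rfl | rfl | rfl <;> rcases hd with rfl | rfl | rfl <;> simp
    rcases key _ _ _ _ f1.1 f1.2 f2.2 f3.2 a1 a2 m2 a3 m3 with hh | hh | hh
    · exact ⟨x, SameCycle.refl _ _, hh.1, hh.2⟩
    · exact ⟨M.fc x, hc1, by rw [d2]; exact hh.1, hh.2⟩
    · exact ⟨M.fc (M.fc x), hc2, by rw [d3]; exact hh.1, hh.2⟩
  have hk1 := hfc k hk
  have hk2 := hfc _ hk1
  have perA : Function.minimalPeriod M.rot (M.fc k) = 4 := by
    rw [h.per]; exact t0_card _ k1
  have k2' : (lab (M.fc (M.fc k))).1 = 3 ∨ (lab (M.fc (M.fc k))).1 = 4 := by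
    rw [h.src_fc]; exact k2
  have perB : Function.minimalPeriod M.rot (M.fc (M.fc k)) = 4 := by
    rw [h.per]; exact t0_card _ k2'
  -- the four legs
  have LA1 : Leg lab (M.rot^[1] (M.fc k)) :=
    h.iter_leg (hF _ hk1) (faceIn_self (hF k hk)).1 one_pos (by omega)
  have LA2 : Leg lab (M.rot^[2] (M.fc k)) :=
    h.iter_leg (hF _ hk1) (faceIn_self (hF k hk)).1 two_pos (by omega)
  have LB1 : Leg lab (M.rot^[1] (M.fc (M.fc k))) :=
    h.iter_leg (hF _ hk2) (faceIn_self (hF _ hk1)).1 one_pos (by omega)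
  have LB2 : Leg lab (M.rot^[2] (M.fc (M.fc k))) :=
    h.iter_leg (hF _ hk2) (faceIn_self (hF _ hk1)).1 two_pos (by omega)
  have pB := p1 (M.fc k) hk1 1 one_pos (by omega)
  have pM := p2 k hk 2 (by omega)
  have pA := p1 k hk 1 one_pos (by omega)
  -- the labels
  have cA1 := t0_leg _ _ k1 (h.adj_src (hcyc (M.fc k) 1)) LA1.2
  have cA2 := t0_leg _ _ k1 (h.adj_src (hcyc (M.fc k) 2)) LA2.2
  have cB1 := t0_leg _ _ k2' (h.adj_src (hcyc (M.fc (M.fc k)) 1)) LB1.2
  have cB2 := t0_leg _ _ k2' (h.adj_src (hcyc (M.fc (M.fc k)) 2)) LB2.2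
  have neA : (lab (M.rot^[2] (M.fc k))).2 ≠ (lab (M.rot^[1] (M.fc k))).2 := by
    rw [Function.iterate_succ_apply']; exact h.rot_ne _
  have neB : (lab (M.rot^[2] (M.fc (M.fc k)))).2 ≠ (lab (M.rot^[1] (M.fc (M.fc k)))).2 := by
    rw [Function.iterate_succ_apply']; exact h.rot_ne _
  have comb : ∀ a b c d : Fin 7, (a = 1 ∨ a = 2) → (b = 1 ∨ b = 2) → (c = 1 ∨ c = 2) →
      (d = 1 ∨ d = 2) → b ≠ a → d ≠ c → (a = 1 ∧ b = 2) ∨ (b = 1 ∧ c = 2) ∨ (c = 1 ∧ d = 2) := by
    intro a b c d ha hb hc hd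
    rcases ha with rfl | rfl <;> rcases hb with rfl | rfl <;>
      rcases hc with rfl | rfl <;> rcases hd with rfl | rfl <;> simp
  have comb' : ∀ a b c d : Fin 7, (a = 1 ∨ a = 2) → (b = 1 ∨ b = 2) → (c = 1 ∨ c = 2) →
      (d = 1 ∨ d = 2) → b ≠ a → d ≠ c → (a = 2 ∧ b = 1) ∨ (b = 2 ∧ c = 1) ∨ (c = 2 ∧ d = 1) := by
    intro a b c d ha hb hc hd
    rcases ha with rfl | rfl <;> rcases hb with rfl | rfl <;>
      rcases hc with rfl | rfl <;> rcases hd with rfl | rfl <;> simp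
  by_cases hs : Sg M lab (M.rot (M.fc k))
  · -- all the legs are positive
    have pos : ∀ k', M.fc.SameCycle x k' → ∀ i, 0 < i →
        i + 1 < Function.minimalPeriod M.rot (M.fc k') → Sg M lab (M.rot^[i] (M.fc k')) := by
      intro k' hk' i h0 hi
      by_contra hh
      -- then the first leg at the vertex before is negative, hence all first legs
      obtain ⟨m, hm⟩ := exists_iter (M := M) (x := k') (y := M.fc⁻¹ k')
        ⟨-1, by simp⟩
      have hm' : M.fc (M.fc^[m] k') = k' := by rw [hm]; simp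
      have hkm : M.fc.SameCycle x (M.fc^[m] k') := hk'.trans (fc_iter_same _ _)
      have h1 : ¬ Sg M lab (M.rot (M.fc (M.fc^[m] k'))) := by
        refine n2 (M.fc^[m] k') hkm i h0 ?_ ?_
        · rw [hm']; exact hi
        · rw [hm']; exact hh
      obtain ⟨n, hn⟩ := exists_iter (M := M) (x := k) (y := M.fc^[m] k') (hk.symm.trans hkm)
      rw [← hn] at h1
      exact n3 n k hk h1 hs
    have sA1 := pos k hk 1 one_pos (by omega)
    have sA2 := pos k hk 2 two_pos (by omega)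
    have sB1 := pos (M.fc k) hk1 1 one_pos (by omega)
    have sB2 := pos (M.fc k) hk1 2 two_pos (by omega)
    rcases comb _ _ _ _ cB1 cB2 cA1 cA2 neB neA with hh | hh | hh
    · exact pB (Or.inl ⟨sB1, sB2, hh.1, hh.2⟩)
    · exact pM (Or.inl ⟨sB2, sA1, hh.1, hh.2⟩)
    · exact pA (Or.inl ⟨sA1, sA2, hh.1, hh.2⟩)
  · -- all the legs are negative
    have neg : ∀ k', M.fc.SameCycle x k' → ∀ i, 0 < i →
        i + 1 < Function.minimalPeriod M.rot (M.fc k') → ¬ Sg M lab (M.rot^[i] (M.fc k')) := by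
      intro k' hk' i h0 hi
      obtain ⟨n, hn⟩ := exists_iter (M := M) (x := k') (y := k) (hk'.symm.trans hk)
      rw [← hn] at hs
      exact n1 k' hk' 1 one_pos (by omega) (n3 n k' hk' hs) i h0 hi
    have sA1 := neg k hk 1 one_pos (by omega)
    have sA2 := neg k hk 2 two_pos (by omega)
    have sB1 := neg (M.fc k) hk1 1 one_pos (by omega)
    have sB2 := neg (M.fc k) hk1 2 two_pos (by omega)
    rcases comb' _ _ _ _ cB1 cB2 cA1 cA2 neB neA with hh | hh | hh
    · exact pB (Or.inr (Or.inl ⟨sB1, sB2, hh.1, hh.2⟩))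
    · exact pM (Or.inr (Or.inl ⟨sB2, sA1, hh.1, hh.2⟩))
    · exact pA (Or.inr (Or.inl ⟨sA1, sA2, hh.1, hh.2⟩))

end Side

end Pool.Agent.Lib.MP_5854e1_co.K7S
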