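import Pool.Agent.Lib.MP_5854e1_co.K7S.LocF

/-!
# The local part: the units
-/

set_option autoImplicit false

open Equiv Equiv.Perm Relation

namespace Pool.Agent.Lib.MP_5854e1_co.K7S

open Crc

/-- four times the share of the vertex over `i` in an edge over `i j` -/
def al4 (i j : Fin 7) : ℤ :=
  if T0 i then (if T0 j then 2 else 4)
  else if T0 j then 0
  else if i = 1 ∨ i = 2 then (if j = 5 ∨ j = 6 then 3 else 2)
  else (if j = 1 ∨ j = 2 then 1 else 2)

theorem al4_add : ∀ i j : Fin 7, K7C4.Adj i j → al4 i j + al4 j i = 4 := by decide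

/-- the share -/
def al (i j : Fin 7) : ℚ := (al4 i j : ℚ) / 4

theorem al_add {i j : Fin 7} (h : K7C4.Adj i j) : al i j + al j i = 1 := by
  have h1 := al4_add i j h
  have h2 : (al4 i j : ℚ) + al4 j i = 4 := by exact_mod_cast h1
  unfold al
  linarith

theorem al_nonneg (i j : Fin 7) : 0 ≤ al i j := by
  have h1 : ∀ i j : Fin 7, 0 ≤ al4 i j := by decide
  have h2 : (0 : ℚ) ≤ al4 i j := by exact_mod_cast h1 i j
  unfold al
  linarith

namespace Side

variable {D : Type*} [Fintype D] {M : CMap D} {lab : D → Fin 7 × Fin 7} {e : D}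

open Classical in
/-- one at a demanding leg -/
noncomputable def dm (M : CMap D) (lab : D → Fin 7 × Fin 7) (y : D) : ℚ :=
  if Dem M lab y then 1 else 0

open Classical in
/-- the units -/
noncomputable def U (M : CMap D) (lab : D → Fin 7 × Fin 7) (y : D) : ℚ :=
  if T0 (lab y).1 then
    (if T0 (lab y).2 then
      (if ¬ M.c y ∧ FaceIn M lab T0 y then ∑ z ∈ cl M.rot y, dm M lab z else 0)
    else 1 - dm M lab y)
  else if Spc M lab y then 1 else 0

theorem dm_nonneg (y : D) : 0 ≤ dm M lab y := by unfold dm; split_ifs <;> norm_num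

theorem dm_le (y : D) : dm M lab y ≤ 1 := by unfold dm; split_ifs <;> norm_num

theorem U_nonneg (y : D) : 0 ≤ U M lab y := by
  unfold U
  have h1 := dm_le (M := M) (lab := lab) y
  split_ifs
  · exact Finset.sum_nonneg fun z _ => dm_nonneg z
  · exact le_refl _
  · linarith
  · norm_num
  · exact le_refl _

variable (h : Side M lab e)

include h

/-- every face of the side has a unit -/
theorem exists_unit {x : D} (hq : EqvGen M.rel e x) : ∃ y, M.fc.SameCycle x y ∧ 1 ≤ U M lab y := by
  by_cases hg : Gen M lab x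
  · by_cases hleg : ∃ l, M.fc.SameCycle x l ∧ Leg lab l
    · obtain ⟨l, hl, hleg⟩ := hleg
      have hql : EqvGen M.rel e l := by
        obtain ⟨n, rfl⟩ := exists_iter hl
        exact q_iter hq n
      obtain ⟨l2, hl2, hleg2, hd⟩ := h.exists_not_dem hleg hql
      refine ⟨l2, hl.trans hl2, ?_⟩
      unfold U
      rw [if_pos hleg2.1, if_neg hleg2.2]
      unfold dm
      rw [if_neg hd]
      norm_num
    · push Not at hleg
      obtain ⟨y, hy, hy0⟩ := hg
      have key : ∀ n, T0 (lab (M.fc^[n] y)).1 := by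
        intro n
        induction n with
        | zero => exact hy0
        | succ n ih =>
          rw [Function.iterate_succ_apply', h.src_fc]
          by_contra hh
          exact hleg _ (hy.trans (fc_iter_same y n)) ⟨ih, hh⟩
      have hf : FaceIn M lab T0 x := by
        intro z hz
        obtain ⟨n, rfl⟩ := exists_iter (M := M) (x := y) (y := z) (hy.symm.trans hz)
        refine ⟨key n, ?_⟩
        have := key (n + 1)
        rwa [Function.iterate_succ_apply', h.src_fc] at this
      obtain ⟨k, hk, l, hl, hd⟩ := h.exists_dem hq hf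
      have hfk : FaceIn M lab T0 k := fun z hz => hf z (hk.trans hz)
      have hqk : EqvGen M.rel e k := by
        obtain ⟨n, rfl⟩ := exists_iter hk
        exact q_iter hq n
      refine ⟨k, hk, ?_⟩
      unfold U
      rw [if_pos (faceIn_self hfk).1, if_pos (faceIn_self hfk).2, if_pos ⟨h.not_emp hqk hfk, hfk⟩]
      have h1 : dm M lab l = 1 := by unfold dm; rw [if_pos hd]
      rw [← h1]
      exact Finset.single_le_sum (f := dm M lab) (fun z _ => dm_nonneg z) (mem_cl.2 hl)
  · obtain ⟨y, hy, hs⟩ := h.exists_spc hq hg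
    refine ⟨y, hy, ?_⟩
    unfold U
    have h0 : ¬ T0 (lab y).1 := by
      rcases hs.1 with hh | hh <;> rw [hh] <;> decide
    rw [if_neg h0, if_pos hs]

open Classical in
theorem faces_le : ∑ x ∈ Finset.univ.filter (fun x => EqvGen M.rel e x), vv M.fc x ≤
    ∑ x ∈ Finset.univ.filter (fun x => EqvGen M.rel e x), U M lab x := by
  refine cav M.fc _ (fun x => q_fc x) _ _ fun x hx => ?_
  rw [sum_vv]
  obtain ⟨y, hy, hU⟩ := h.exists_unit hx
  exact hU.trans (Finset.single_le_sum (f := U M lab) (fun z _ => U_nonneg z) (mem_cl.2 hy))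

/-! ### the units at a vertex -/

/-- two inner darts at a vertex are equal -/
theorem inner_unique {x y : D} (hxy : M.rot.SameCycle x y) (hx : FaceIn M lab T0 x)
    (hy : FaceIn M lab T0 y) : x = y := by
  by_contra hne
  obtain ⟨p, hp, tp⟩ := h.faceIn_before hx
  obtain ⟨r, hr, tr⟩ := h.faceIn_before hy
  have hxp : M.rot.SameCycle x p := by rw [← hp]; exact (same_rot p).symm
  have hyr : M.rot.SameCycle y r := by rw [← hr]; exact (same_rot r).symm
  have nxy : (lab x).2 ≠ (lab y).2 := fun hh => hne (h.inj _ _ hxy hh)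
  have sx := faceIn_self hx
  have sy := faceIn_self hy
  have e1 : p = y := by
    rcases t0_two _ _ _ _ sx.1 sx.2 sy.2 tp (h.adj x) (h.adj_src hxy) (h.adj_src hxp) nxy
      with hh | hh
    · exfalso
      refine h.rot_ne p ?_
      rw [hp]
      exact hh.symm
    · exact h.inj _ _ (hxp.symm.trans hxy) hh
  have e2 : r = x := by
    rcases t0_two _ _ _ _ sy.1 sy.2 sx.2 tr (h.adj y) (h.adj_src hxy.symm) (h.adj_src hyr) nxy.symm
      with hh | hh
    · exfalso
      refine h.rot_ne r ?_
      rw [hr]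
      exact hh.symm
    · exact h.inj _ _ (hyr.symm.trans hxy.symm) hh
  refine h.rot_ne2 x ?_
  rw [e1] at hp
  rw [e2] at hr
  rw [hr, hp]

/-- two special corners at a vertex are equal -/
theorem spc_unique {x y : D} (hxy : M.rot.SameCycle x y) (hx : Spc M lab x) (hy : Spc M lab y) :
    x = y := by
  by_contra hne
  set p := M.rot⁻¹ x with hpd
  set r := M.rot⁻¹ y with hrd
  have hp : M.rot p = x := by rw [hpd]; simp
  have hr : M.rot r = y := by rw [hrd]; simp
  have hxp : M.rot.SameCycle x p := by rw [← hp]; exact (same_rot p).symm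
  have hyr : M.rot.SameCycle y r := by rw [← hr]; exact (same_rot r).symm
  have nxy : (lab x).2 ≠ (lab y).2 := fun hh => hne (h.inj _ _ hxy hh)
  have two : ∀ i j k : Fin 7, (i = 5 ∨ i = 6) → (j = 5 ∨ j = 6) → (k = 5 ∨ k = 6) → i ≠ j →
      k = i ∨ k = j := by decide
  have e1 : p = y := by
    rcases two _ _ _ hx.2.1 hy.2.1 hx.2.2 nxy with hh | hh
    · exfalso
      refine h.rot_ne p ?_
      rw [hp]
      exact hh.symm
    · exact h.inj _ _ (hxp.symm.trans hxy) hh
  have e2 : r = x := by
    rcases two _ _ _ hx.2.1 hy.2.1 hy.2.2 nxy with hh | hh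
    · exact h.inj _ _ (hyr.symm.trans hxy.symm) hh
    · exfalso
      refine h.rot_ne r ?_
      rw [hr]
      exact hh.symm
  refine h.rot_ne2 x ?_
  rw [e1] at hp
  rw [e2] at hr
  rw [hr, hp]

open Classical in
omit h in
/-- at most one element with a property -/
theorem sum_le_one {s : Finset D} {P : D → Prop} (hP : ∀ x ∈ s, ∀ y ∈ s, P x → P y → x = y) :
    ∑ x ∈ s, (if P x then (1 : ℚ) else 0) ≤ 1 := by
  rw [Finset.sum_ite, Finset.sum_const, Finset.sum_const_zero, add_zero, nsmul_eq_mul, mul_one]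
  have : (s.filter P).card ≤ 1 := by
    rw [Finset.card_le_one]
    intro a ha b hb
    rw [Finset.mem_filter] at ha hb
    exact hP a ha.1 b hb.1 ha.2 hb.2
  exact_mod_cast this

open Classical in
theorem vertex_le {x : D} (_hxv : ¬ XV M x) :
    ∑ y ∈ cl M.rot x, U M lab y + 1 ≤ ∑ y ∈ cl M.rot x, al (lab y).1 (lab y).2 := by
  have hal : ∑ y ∈ cl M.rot x, al (lab y).1 (lab y).2 =
      ∑ j ∈ Finset.univ.filter (fun j => K7C4.Adj (lab x).1 j), al (lab x).1 j := by
    rw [← h.sum_cl x (fun j => al (lab x).1 j)]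
    refine Finset.sum_congr rfl fun y hy => ?_
    rw [h.src_same (mem_cl.1 hy)]
  rw [hal]
  have hcast : ∀ i : Fin 7, ∑ j ∈ Finset.univ.filter (fun j => K7C4.Adj i j), al i j =
      ((∑ j ∈ Finset.univ.filter (fun j => K7C4.Adj i j), al4 i j : ℤ) : ℚ) / 4 := by
    intro i
    unfold al
    rw [← Finset.sum_div]
    push_cast
    rfl
  rw [hcast]
  by_cases h0 : T0 (lab x).1
  · -- a vertex of a leaf circle
    have hU : ∀ y ∈ cl M.rot x, U M lab y ≤ (if T0 (lab y).2 then 0 else 1) - dm M lab y +
        (if FaceIn M lab T0 y then 1 else 0) * ∑ z ∈ cl M.rot x, dm M lab z := by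
      intro y hy
      have hxy := mem_cl.1 hy
      have hs : T0 (lab y).1 := by rw [← h.src_same hxy]; exact h0
      have hcl : cl M.rot y = cl M.rot x := by
        ext z
        rw [mem_cl, mem_cl]
        exact ⟨fun hz => hxy.trans hz, fun hz => hxy.symm.trans hz⟩
      have hnn : 0 ≤ ∑ z ∈ cl M.rot x, dm M lab z := Finset.sum_nonneg fun z _ => dm_nonneg z
      unfold U
      rw [if_pos hs]
      by_cases ht : T0 (lab y).2
      · have hd : dm M lab y = 0 := by
          unfold dm
          rw [if_neg]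
          exact fun hh => hh.1.2 ht
        rw [if_pos ht, if_pos ht, hd, hcl]
        by_cases hf : FaceIn M lab T0 y
        · rw [if_pos hf]
          split_ifs <;> linarith
        · rw [if_neg hf, if_neg (fun hh => hf hh.2)]
          linarith
      · rw [if_neg ht, if_neg ht]
        have h2 : (0 : ℚ) ≤ (if FaceIn M lab T0 y then 1 else 0) * ∑ z ∈ cl M.rot x, dm M lab z := by
          split_ifs
          · linarith
          · linarith
        linarith
    have h1 := Finset.sum_le_sum hU
    rw [Finset.sum_add_distrib, Finset.sum_sub_distrib, ← Finset.sum_mul] at h1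
    have h2 : ∑ y ∈ cl M.rot x, (if FaceIn M lab T0 y then (1 : ℚ) else 0) ≤ 1 :=
      sum_le_one fun a ha b hb h3 h4 =>
        h.inner_unique ((mem_cl.1 ha).symm.trans (mem_cl.1 hb)) h3 h4
    have hnn : 0 ≤ ∑ z ∈ cl M.rot x, dm M lab z := Finset.sum_nonneg fun z _ => dm_nonneg z
    have h3 := mul_le_mul_of_nonneg_right h2 hnn
    have h4 := h.sum_cl x (fun j => if T0 j then (0 : ℚ) else 1)
    have h5 : ∀ i : Fin 7, ∑ j ∈ Finset.univ.filter (fun j => K7C4.Adj i j),
        (if T0 j then (0 : ℚ) else 1) = ((∑ j ∈ Finset.univ.filter (fun j => K7C4.Adj i j),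
        (if T0 j then (0 : ℤ) else 1) : ℤ) : ℚ) := by
      intro i
      push_cast
      rfl
    have h6 : ∀ i : Fin 7, T0 i → 4 * (∑ j ∈ Finset.univ.filter (fun j => K7C4.Adj i j),
        (if T0 j then (0 : ℤ) else 1)) + 4 ≤
        ∑ j ∈ Finset.univ.filter (fun j => K7C4.Adj i j), al4 i j := by decide
    have h7 := h6 _ h0
    have h8 : (4 : ℚ) * ((∑ j ∈ Finset.univ.filter (fun j => K7C4.Adj (lab x).1 j),
        (if T0 j then (0 : ℤ) else 1) : ℤ) : ℚ) + 4 ≤
        ((∑ j ∈ Finset.univ.filter (fun j => K7C4.Adj (lab x).1 j), al4 (lab x).1 j : ℤ) : ℚ) := by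
      exact_mod_cast h7
    rw [← h5] at h8
    rw [h4] at h1
    linarith
  · have hU : ∀ y ∈ cl M.rot x, U M lab y = if Spc M lab y then 1 else 0 := by
      intro y hy
      unfold U
      rw [if_neg]
      rw [← h.src_same (mem_cl.1 hy)]
      exact h0
    rw [Finset.sum_congr rfl hU]
    rcases not_T0 _ h0 with hs | hs | hs | hs
    · have h2 : ∑ y ∈ cl M.rot x, (if Spc M lab y then (1 : ℚ) else 0) ≤ 1 :=
        sum_le_one fun a ha b hb h3 h4 =>
          h.spc_unique ((mem_cl.1 ha).symm.trans (mem_cl.1 hb)) h3 h4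
      have h7 : (∑ j ∈ Finset.univ.filter (fun j => K7C4.Adj (1 : Fin 7) j), al4 1 j) = 8 := by
        decide
      rw [hs, h7]
      push_cast
      linarith
    · have h2 : ∑ y ∈ cl M.rot x, (if Spc M lab y then (1 : ℚ) else 0) ≤ 1 :=
        sum_le_one fun a ha b hb h3 h4 =>
          h.spc_unique ((mem_cl.1 ha).symm.trans (mem_cl.1 hb)) h3 h4
      have h7 : (∑ j ∈ Finset.univ.filter (fun j => K7C4.Adj (2 : Fin 7) j), al4 2 j) = 8 := by
        decide
      rw [hs, h7]
      push_cast
      linarith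
    all_goals
      have h2 : ∑ y ∈ cl M.rot x, (if Spc M lab y then (1 : ℚ) else 0) = 0 := by
        refine Finset.sum_eq_zero fun y hy => ?_
        rw [if_neg]
        intro hh
        have := hh.1
        rw [← h.src_same (mem_cl.1 hy), hs] at this
        exact absurd this (by decide)
      rw [h2]
    · have h7 : (∑ j ∈ Finset.univ.filter (fun j => K7C4.Adj (5 : Fin 7) j), al4 5 j) = 4 := by
        decide
      rw [hs, h7]
      norm_num
    · have h7 : (∑ j ∈ Finset.univ.filter (fun j => K7C4.Adj (6 : Fin 7) j), al4 6 j) = 4 := by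
        decide
      rw [hs, h7]
      norm_num

end Side

end Pool.Agent.Lib.MP_5854e1_co.K7S
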