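import Pool.Agent.Lib.MP_5854e1_co.K7S.LocG

/-!
# The local part: the count
-/

set_option autoImplicit false

open Equiv Equiv.Perm Relation

namespace Pool.Agent.Lib.MP_5854e1_co.K7S

open Crc

namespace Side

variable {D : Type*} [Fintype D] {M : CMap D} {lab : D → Fin 7 × Fin 7} {e : D}

theorem it_same (σ : Perm D) (x : D) (n : ℕ) : σ.SameCycle x (σ^[n] x) :=
  ⟨n, by rw [zpow_natCast, Equiv.Perm.coe_pow]⟩

variable (h : Side M lab e)

include h

theorem xv_th (x : D) : XV M (M.th x) ↔ XV M x := by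
  by_cases hc : M.c x
  · rw [M.th_F ((h.Fc x).2 hc), xv_rot]
    exact iff_of_true (xv_of_c ((M.c_inv x).2 hc)) (xv_of_c hc)
  · rw [h.th_rot hc, xv_rot]

theorem xv_cont {x : D} (hx : M.th.SameCycle e x) : XV M x :=
  (inv_same (σ := M.th) (R := XV M) h.xv_th hx).1 (xv_of_c h.he)

theorem cont_xv {x : D} (hq : EqvGen M.rel e x) (hx : XV M x) : M.th.SameCycle e x := by
  classical
  obtain ⟨y, hy, hxy⟩ := hx
  obtain ⟨i, -, hi⟩ := sameCycle_iterate M.rot hxy
  have hex : ∃ i, M.c (M.rot^[i] x) := ⟨i, by rw [hi]; exact hy⟩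
  have hit : ∀ j ≤ Nat.find hex, M.th^[j] x = M.rot^[j] x := by
    intro j
    induction j with
    | zero => exact fun _ => rfl
    | succ j ih =>
      intro hj
      have h1 := ih (by omega)
      rw [Function.iterate_succ_apply', Function.iterate_succ_apply', h1]
      exact h.th_rot (Nat.find_min hex (by omega))
  have h1 := hit _ le_rfl
  have h2 := Nat.find_spec hex
  rw [← h1] at h2
  have h3 := it_same M.th x (Nat.find hex)
  have h4 := h.cont _ (hq.trans _ _ _ (M.same_eqv h3)) h2
  exact h4.trans h3.symm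

theorem cl_eq {x : D} (hx : ¬ XV M x) : cl M.th x = cl M.rot x := by
  have hit : ∀ j, M.th^[j] x = M.rot^[j] x := by
    intro j
    induction j with
    | zero => rfl
    | succ j ih =>
      rw [Function.iterate_succ_apply', Function.iterate_succ_apply', ih]
      exact h.th_rot fun hc => hx ((xv_same (it_same M.rot x j)).2 (xv_of_c hc))
  ext y
  rw [mem_cl, mem_cl]
  constructor
  · intro hy
    obtain ⟨i, -, rfl⟩ := sameCycle_iterate M.th hy
    rw [hit]
    exact it_same _ _ _
  · intro hy
    obtain ⟨i, -, rfl⟩ := sameCycle_iterate M.rot hy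
    rw [← hit]
    exact it_same _ _ _

open Classical in
theorem u_le {y : D} (hy : XV M y) :
    U M lab y ≤ if M.c y then 0 else al (lab y).1 (lab y).2 := by
  have hs := h.xv_T0 hy
  unfold U
  rw [if_pos hs]
  by_cases ht : T0 (lab y).2
  · have hc := h.c_of_xv hy ht
    rw [if_pos ht, if_pos hc, if_neg (fun hh => hh.1 hc)]
  · have hc : ¬ M.c y := fun hc => ht (h.cT y hc).2
    rw [if_neg ht, if_neg hc]
    have h1 := dm_nonneg (M := M) (lab := lab) y
    have h2 : al (lab y).1 (lab y).2 = 1 := by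
      unfold al al4
      rw [if_pos hs, if_neg ht]
      norm_num
    rw [h2]
    linarith

open Classical in
theorem sum_al : ∑ x ∈ Finset.univ.filter (fun x => EqvGen M.rel e x),
      (if M.c x then 0 else al (lab x).1 (lab x).2) =
    ∑ x ∈ Finset.univ.filter (fun x => EqvGen M.rel e x), (if M.F x then (0 : ℚ) else 1 / 2) := by
  have h1 : ∑ x ∈ Finset.univ.filter (fun x => EqvGen M.rel e x),
      (if M.c x then 0 else al (lab x).1 (lab x).2) =
      ∑ x ∈ Finset.univ.filter (fun x => EqvGen M.rel e x),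
      (if M.c x then 0 else al (lab x).2 (lab x).1) := by
    refine Finset.sum_nbij' (fun x => M.ga x) (fun x => M.ga x) ?_ ?_ ?_ ?_ ?_
    · intro x hx
      rw [Finset.mem_filter] at hx ⊢
      exact ⟨Finset.mem_univ _, (q_ga x).2 hx.2⟩
    · intro x hx
      rw [Finset.mem_filter] at hx ⊢
      exact ⟨Finset.mem_univ _, (q_ga x).2 hx.2⟩
    · intro x _
      exact M.ga_ga x
    · intro x _
      exact M.ga_ga x
    · intro x _
      by_cases hc : M.c x
      · rw [M.ga_F ((h.Fc x).2 hc), if_pos hc, if_pos hc]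
      · rw [M.ga_nF (fun hF => hc ((h.Fc x).1 hF)), if_neg hc, h.src_inv, h.tgt_inv,
          if_neg (fun hh => hc ((M.c_inv x).1 hh))]
  have h2 : ∑ x ∈ Finset.univ.filter (fun x => EqvGen M.rel e x),
      (if M.c x then 0 else al (lab x).1 (lab x).2) +
      ∑ x ∈ Finset.univ.filter (fun x => EqvGen M.rel e x),
      (if M.c x then 0 else al (lab x).2 (lab x).1) =
      2 * ∑ x ∈ Finset.univ.filter (fun x => EqvGen M.rel e x),
      (if M.F x then (0 : ℚ) else 1 / 2) := by
    rw [← Finset.sum_add_distrib, Finset.mul_sum]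
    refine Finset.sum_congr rfl fun x _ => ?_
    by_cases hc : M.c x
    · rw [if_pos hc, if_pos hc, if_pos ((h.Fc x).2 hc)]
      norm_num
    · rw [if_neg hc, if_neg hc, if_neg (fun hF => hc ((h.Fc x).1 hF)), al_add (h.adj x)]
      norm_num
  linarith

open Classical in
theorem sum_cont : ∑ x ∈ Finset.univ.filter (fun x => EqvGen M.rel e x),
    (if M.th.SameCycle e x then vv M.th x else 0) = 1 := by
  rw [← sum_vv M.th e, ← Finset.sum_filter]
  refine Finset.sum_congr ?_ fun _ _ => rfl
  ext x
  rw [mem_cl, Finset.mem_filter, Finset.mem_filter]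
  exact ⟨fun hx => hx.2, fun hx => ⟨⟨Finset.mem_univ _, M.same_eqv hx⟩, hx⟩⟩

open Classical in
theorem nodes_le : ∑ x ∈ Finset.univ.filter (fun x => EqvGen M.rel e x),
      (U M lab x + vv M.th x - (if M.th.SameCycle e x then vv M.th x else 0)) ≤
    ∑ x ∈ Finset.univ.filter (fun x => EqvGen M.rel e x),
      (if M.c x then 0 else al (lab x).1 (lab x).2) := by
  refine cav M.th _ (fun x => q_th x) _ _ fun x hx => ?_
  by_cases hex : M.th.SameCycle e x
  · refine Finset.sum_le_sum fun y hy => ?_
    have hey := hex.trans (mem_cl.1 hy)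
    rw [if_pos hey]
    have := h.u_le (h.xv_cont hey)
    linarith
  · have hxv : ¬ XV M x := fun hh => hex (h.cont_xv hx hh)
    have h1 : ∑ y ∈ cl M.th x,
        (U M lab y + vv M.th y - (if M.th.SameCycle e y then vv M.th y else 0)) =
        ∑ y ∈ cl M.th x, U M lab y + 1 := by
      rw [← sum_vv M.th x, ← Finset.sum_add_distrib]
      refine Finset.sum_congr rfl fun y hy => ?_
      rw [if_neg (fun hh => hex (hh.trans (mem_cl.1 hy).symm)), sub_zero]
    have h2 : ∑ y ∈ cl M.th x, (if M.c y then 0 else al (lab y).1 (lab y).2) =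
        ∑ y ∈ cl M.rot x, al (lab y).1 (lab y).2 := by
      rw [h.cl_eq hxv]
      refine Finset.sum_congr rfl fun y hy => ?_
      rw [if_neg (fun hc => hxv ((xv_same (mem_cl.1 hy)).2 (xv_of_c hc)))]
    rw [h1, h2, h.cl_eq hxv]
    exact h.vertex_le hxv

theorem contra : False := by
  classical
  have h1 := h.euler
  have h2 := h.faces_le
  have h3 := h.nodes_le
  have h4 := h.sum_al
  have h5 := h.sum_cont
  rw [Finset.sum_sub_distrib, Finset.sum_add_distrib] at h1
  rw [Finset.sum_sub_distrib, Finset.sum_add_distrib] at h3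
  linarith

end Side

end Pool.Agent.Lib.MP_5854e1_co.K7S
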