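import Pool.Agent.Lib.MP_5854e1_co.K7S.SideA

/-!
# Nesting of disjoint circles

`M`, `M'` are two circles (no common vertex) in the same planar map, `e' ` lies in the side of `e`.
Then one of the two sides of the second circle is contained in the side of `e` and does not
contain `e`.

Proof: all the darts at the vertices of the circle of `M` are equivalent for `M'.rel` (the first
circle is connected and has no vertex on the second one), so by `sep` for `M'` one of the two
classes of `e'`, `inv e'` does not contain `e`, hence contains no dart at a vertex of the first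
circle.  In this class every step of `M'.rel` is a chain of steps of `M.rel`: at darts which are
not on the second circle `th' = rot = th` and `ga' = inv = ga`; for `x` on the second circle
`th' x = rot (inv x) = th (ga x)`.
-/

set_option autoImplicit false

open Equiv Equiv.Perm Relation

namespace Pool.Agent.Lib.MP_5854e1_co.K7S

open Crc

variable {D : Type*} [Fintype D] [DecidableEq D]

omit [Fintype D] [DecidableEq D] in
private theorem step_rot {M : CMap D} {x : D} (hx : ¬ M.F x) : EqvGen M.rel x (M.rot x) :=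
  EqvGen.rel _ _ (Or.inl (M.th_nF hx))

omit [Fintype D] [DecidableEq D] in
private theorem step_inv {M : CMap D} {x : D} (hx : ¬ M.F x) : EqvGen M.rel x (M.inv x) :=
  EqvGen.rel _ _ (Or.inr (M.ga_nF hx))

omit [DecidableEq D] in
/-- a property kept by a permutation holds on the whole cycle -/
private theorem cyc_ind {σ : Perm D} {P : D → Prop} (hP : ∀ x, P x → P (σ x)) {x y : D}
    (h : σ.SameCycle x y) (hx : P x) : P y := by
  classical
  obtain ⟨i, -, rfl⟩ := sameCycle_iterate σ h
  clear h
  induction i with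
  | zero => exact hx
  | succ i ih =>
    rw [Function.iterate_succ_apply']
    exact hP _ ih

omit [DecidableEq D] in
/-- all the darts of the first circle are equivalent for the second one -/
private theorem circ_conn {M M' : CMap D} (hrot : M.rot = M'.rot) (hinv : M.inv = M'.inv) {e : D}
    (h : OneCircle M e) (hF' : ∀ x, M'.F x ↔ M'.c x)
    (hdis : ∀ x y, M.c x → M'.c y → ¬ M.rot.SameCycle x y) {x : D} (hx : M.c x) :
    EqvGen M'.rel e x := by
  have hno : ∀ z y, M.c y → M.rot.SameCycle y z → ¬ M'.F z := fun z y hy hyz hz =>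
    hdis y z hy ((hF' z).1 hz) hyz
  have hi : ∀ z, M.c z → EqvGen M'.rel z (M.inv z) := fun z hz => by
    rw [hinv]
    exact step_inv (hno z z hz (SameCycle.refl _ _))
  have hst : ∀ z, (EqvGen M'.rel e z ∧ ∃ y, M.c y ∧ M.rot.SameCycle y z) →
      (EqvGen M'.rel e (M.th z) ∧ ∃ y, M.c y ∧ M.rot.SameCycle y (M.th z)) := by
    rintro z ⟨hz, y, hy, hyz⟩
    by_cases hF : M.F z
    · have hc : M.c z := (h.Fc z).1 hF
      have hc' : M.c (M.inv z) := (M.c_inv z).2 hc
      rw [M.th_F hF]
      refine ⟨(hz.trans _ _ _ (hi z hc)).trans _ _ _ ?_, M.inv z, hc',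
        sameCycle_apply_right.2 (SameCycle.refl _ _)⟩
      rw [hrot]
      exact step_rot (hno _ _ hc' (SameCycle.refl _ _))
    · rw [M.th_nF hF]
      refine ⟨hz.trans _ _ _ ?_, y, hy, sameCycle_apply_right.2 hyz⟩
      rw [hrot]
      exact step_rot (hno _ _ hy hyz)
  rcases h.two x hx with h1 | h1
  · exact (cyc_ind (P := fun z => EqvGen M'.rel e z ∧ ∃ y, M.c y ∧ M.rot.SameCycle y z) hst h1
      ⟨EqvGen.refl _, e, h.he, SameCycle.refl _ _⟩).1
  · exact (cyc_ind (P := fun z => EqvGen M'.rel e z ∧ ∃ y, M.c y ∧ M.rot.SameCycle y z) hst h1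
      ⟨hi e h.he, M.inv e, (M.c_inv e).2 h.he, SameCycle.refl _ _⟩).1

theorem nest {M M' : CMap D} (hrot : M.rot = M'.rot) (hinv : M.inv = M'.inv) {e e' : D}
    (h : OneCircle M e) (h' : OneCircle M' e')
    (hdis : ∀ x y, M.c x → M'.c y → ¬ M.rot.SameCycle x y)
    (hpl : defect M.rot M.inv = 0) (hee : EqvGen M.rel e e') :
    ∃ f, (f = e' ∨ f = M'.inv e') ∧ (∀ d, EqvGen M'.rel f d → EqvGen M.rel e d) ∧
      ¬ EqvGen M'.rel f e := by
  have hcc : ∀ x, M.c x → EqvGen M'.rel e x := fun x hx => circ_conn hrot hinv h h'.Fc hdis hx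
  have hsep := h'.sep (by rw [← hrot, ← hinv]; exact hpl)
  have he' : ¬ M.c e' := fun hc => hdis e' e' hc h'.he (SameCycle.refl _ _)
  have he'F : ¬ M.F e' := fun hF => he' ((h.Fc e').1 hF)
  obtain ⟨f, hf, hfe, hef⟩ : ∃ f, (f = e' ∨ f = M'.inv e') ∧ ¬ EqvGen M'.rel f e ∧
      EqvGen M.rel e f := by
    by_cases h1 : EqvGen M'.rel e' e
    · refine ⟨M'.inv e', Or.inr rfl, fun h2 => hsep (h1.trans _ _ _ h2.symm), ?_⟩
      rw [← hinv]
      exact hee.trans _ _ _ (step_inv he'F)
    · exact ⟨e', Or.inl rfl, h1, hee⟩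
  refine ⟨f, hf, fun d hd => hef.trans _ _ _ ?_, hfe⟩
  have hnc : ∀ a, EqvGen M'.rel f a → ¬ M.F a := fun a ha hF =>
    hfe (ha.trans _ _ _ (hcc a ((h.Fc a).1 hF)).symm)
  have key : ∀ a b, EqvGen M'.rel a b → EqvGen M'.rel f a → EqvGen M.rel a b := by
    intro a b hab
    induction hab with
    | rel a b hab =>
      intro hfa
      have hF := hnc a hfa
      rcases hab with hab | hab
      · by_cases hF' : M'.F a
        · rw [M'.th_F hF', ← hrot, ← hinv] at hab
          rw [← hab]
          exact (step_inv hF).trans _ _ _ (step_rot (fun hF2 => hF ((M.F_inv a).1 hF2)))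
        · rw [M'.th_nF hF', ← hrot] at hab
          rw [← hab]
          exact step_rot hF
      · by_cases hF' : M'.F a
        · rw [M'.ga_F hF'] at hab
          rw [hab]
          exact EqvGen.refl _
        · rw [M'.ga_nF hF', ← hinv] at hab
          rw [← hab]
          exact step_inv hF
    | refl a => exact fun _ => EqvGen.refl _
    | symm a b hab ih => exact fun hb => (ih (hb.trans _ _ _ hab.symm)).symm
    | trans a b c hab _ ih1 ih2 =>
      exact fun ha => (ih1 ha).trans _ _ _ (ih2 (ha.trans _ _ _ hab))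
  exact key f d hd (EqvGen.refl _)

end Pool.Agent.Lib.MP_5854e1_co.K7S
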