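import Pool.Agent.Lib.MP_5854e1_co.K7S.Defs

/-!
# One circle separates a planar map

`sep`: the two contours of the circle lie in different orbits.
`euler`: every orbit has Euler characteristic two.

Proof: let `C = orb rot inv` (components), `N` the number of orbits of `M.rel`.
(1) `N ≤ C + 1`, and `N ≤ C` if `e` and `inv e` are equivalent: `EqvGen (rot, inv) d d'` implies
`EqvGen M.rel d d'` or both `d`, `d'` are equivalent (for `M.rel`) to `e` or `inv e` (induction on
`EqvGen`; for `x` on the circle `rot x = th (inv x)`, so `rot x` and `inv x` are equivalent, and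
`x`, `inv x` are in the contours of `e`, `inv e`).
(2) the sum over all darts of `vv th + vv fc - (if F then 0 else 1/2)` is at least `2 C + 2`:
the sum of `vv fc` is `cyc fc`, `cyc rot + cyc fc = |D| / 2 + 2 C` (defect zero); on the darts at
vertices off the circle `vv th = vv rot`; on the set `B` of the darts at the vertices of the
circle the sum of `vv rot` is half the number of circle darts (`deg`), and the sum of `vv th` is
at least two (two different contours).
(3) every orbit has sum at most two (`CMap.euler_orbit`), so `2 N ≥ 2 C + 2`; with (1) all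
are equalities.
-/

set_option autoImplicit false

open Equiv Equiv.Perm Relation

namespace Pool.Agent.Lib.MP_5854e1_co.K7S

open Crc

variable {D : Type*}

/-- the relation of the components -/
private def r0 (M : CMap D) (x y : D) : Prop := M.rot x = y ∨ M.inv x = y

/-- equivalent to one of the two contours -/
private def In (M : CMap D) (e x : D) : Prop := EqvGen M.rel e x ∨ EqvGen M.rel (M.inv e) x

private theorem rel_r0 {M : CMap D} {x y : D} (h : M.rel x y) : EqvGen (r0 M) x y := by
  rcases h with h | h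
  · by_cases hx : M.F x
    · rw [M.th_F hx] at h
      exact (EqvGen.rel x (M.inv x) (Or.inr rfl)).trans _ _ _ (EqvGen.rel _ _ (Or.inl h))
    · rw [M.th_nF hx] at h
      exact EqvGen.rel _ _ (Or.inl h)
  · by_cases hx : M.F x
    · rw [M.ga_F hx] at h
      rw [h]
      exact EqvGen.refl _
    · rw [M.ga_nF hx] at h
      exact EqvGen.rel _ _ (Or.inr h)

private theorem eqv_r0 {M : CMap D} {x y : D} (h : EqvGen M.rel x y) : EqvGen (r0 M) x y := by
  induction h with
  | rel x y h => exact rel_r0 h
  | refl x => exact EqvGen.refl _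
  | symm x y _ ih => exact ih.symm
  | trans x y z _ _ ih1 ih2 => exact ih1.trans _ _ _ ih2

private theorem in_of_c [Finite D] {M : CMap D} {e : D} (h : OneCircle M e) {x : D} (hx : M.c x) :
    In M e x :=
  (h.two x hx).imp (fun h => M.same_eqv h) (fun h => M.same_eqv h)

private theorem in_trans {M : CMap D} {e x y : D} (hx : In M e x) (h : EqvGen M.rel x y) :
    In M e y :=
  hx.imp (fun h' => h'.trans _ _ _ h) (fun h' => h'.trans _ _ _ h)

private theorem r0_cases [Finite D] {M : CMap D} {e : D} (h : OneCircle M e) {x y : D}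
    (hxy : EqvGen (r0 M) x y) : EqvGen M.rel x y ∨ (In M e x ∧ In M e y) := by
  induction hxy with
  | rel x y hr =>
    by_cases hx : M.F x
    · right
      have hcx := (h.Fc x).1 hx
      have hcix : M.c (M.inv x) := (M.c_inv x).2 hcx
      refine ⟨in_of_c h hcx, ?_⟩
      rcases hr with hr | hr
      · have h1 : M.th (M.inv x) = y := by
          rw [M.th_F ((M.F_inv x).2 hx), M.inv_inv, hr]
        exact in_trans (in_of_c h hcix) (EqvGen.rel _ _ (Or.inl h1))
      · rw [← hr]
        exact in_of_c h hcix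
    · left
      rcases hr with hr | hr
      · exact EqvGen.rel _ _ (Or.inl (by rw [M.th_nF hx, hr]))
      · exact EqvGen.rel _ _ (Or.inr (by rw [M.ga_nF hx, hr]))
  | refl x => exact Or.inl (EqvGen.refl _)
  | symm x y _ ih => exact ih.imp (EqvGen.symm _ _) And.symm
  | trans x y z _ _ ih1 ih2 =>
    rcases ih1 with h1 | h1
    · rcases ih2 with h2 | h2
      · exact Or.inl (h1.trans _ _ _ h2)
      · exact Or.inr ⟨in_trans h2.1 h1.symm, h2.2⟩
    · rcases ih2 with h2 | h2
      · exact Or.inr ⟨h1.1, in_trans h1.2 h2⟩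
      · exact Or.inr ⟨h1.1, h2.2⟩

variable [Fintype D] [DecidableEq D]

omit [Fintype D] [DecidableEq D] in
private theorem vv_cong {σ τ : Perm D} {x : D} (h : ∀ y, σ.SameCycle x y → τ y = σ y) :
    vv τ x = vv σ x := by
  have hit : ∀ i, τ^[i] x = σ^[i] x := by
    intro i
    induction i with
    | zero => rfl
    | succ i ih =>
      rw [Function.iterate_succ_apply', Function.iterate_succ_apply', ih]
      exact h _ ⟨i, by rw [zpow_natCast, Equiv.Perm.coe_pow]⟩
  unfold vv
  congr 2
  apply Nat.dvd_antisymm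
  · apply Function.IsPeriodicPt.minimalPeriod_dvd
    show τ^[_] x = x
    rw [hit]
    exact Function.isPeriodicPt_minimalPeriod _ _
  · apply Function.IsPeriodicPt.minimalPeriod_dvd
    show σ^[_] x = x
    rw [← hit]
    exact Function.isPeriodicPt_minimalPeriod _ _

omit [Fintype D] [DecidableEq D] in
private theorem vv_inv2 {inv : Perm D} (h1 : ∀ x, inv (inv x) = x) (h2 : ∀ x, inv x ≠ x) (x : D) :
    vv inv x = 1 / 2 := by
  unfold vv
  have h : Function.minimalPeriod inv x = 2 := by
    have hd : Function.minimalPeriod inv x ∣ 2 :=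
      Function.IsPeriodicPt.minimalPeriod_dvd (h1 x)
    rcases (Nat.dvd_prime Nat.prime_two).1 hd with h | h
    · exact absurd (Function.minimalPeriod_eq_one_iff_isFixedPt.1 h) (h2 x)
    · exact h
  rw [h]
  norm_num

open Classical in
/-- the total Euler sum -/
private theorem total {M : CMap D} {e : D} (h : OneCircle M e) (hpl : defect M.rot M.inv = 0) :
    2 * (orb M.rot M.inv : ℚ) + 2 ≤
      ∑ x, (vv M.th x + vv M.fc x - (if M.F x then 0 else 1 / 2)) := by
  obtain ⟨B, hB⟩ : ∃ B : D → Prop, ∀ x, B x ↔ ∃ y, M.rot.SameCycle x y ∧ M.c y :=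
    ⟨fun x => ∃ y, M.rot.SameCycle x y ∧ M.c y, fun _ => Iff.rfl⟩
  have hcB : ∀ x, M.c x → B x := fun x hx => (hB x).2 ⟨x, SameCycle.refl _ _, hx⟩
  have hBr : ∀ x, B (M.rot x) ↔ B x := fun x => by
    rw [hB, hB]
    constructor
    · rintro ⟨y, hy, hc⟩
      exact ⟨y, (show M.rot.SameCycle x (M.rot x) from ⟨1, by simp⟩).trans hy, hc⟩
    · rintro ⟨y, hy, hc⟩
      exact ⟨y, (show M.rot.SameCycle x (M.rot x) from ⟨1, by simp⟩).symm.trans hy, hc⟩
  have hBt : ∀ x, B (M.th x) ↔ B x := fun x => by
    by_cases hx : M.F x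
    · have hc := (h.Fc x).1 hx
      rw [M.th_F hx]
      exact ⟨fun _ => hcB x hc, fun _ => (hBr _).2 (hcB _ ((M.c_inv x).2 hc))⟩
    · rw [M.th_nF hx]
      exact hBr x
  have hout : ∀ x, ¬ B x → vv M.th x = vv M.rot x := fun x hx => by
    refine vv_cong fun y hy => M.th_nF fun hF => hx ((hB x).2 ⟨y, hy, (h.Fc y).1 hF⟩)
  -- the vertices on the circle
  have hdeg : ∑ x ∈ Finset.univ.filter B, (if M.c x then (1 : ℚ) else 0) =
      2 * ∑ x ∈ Finset.univ.filter B, vv M.rot x := by
    rw [sum_avg M.rot B hBr, Finset.mul_sum]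
    refine Finset.sum_congr rfl fun x hx => ?_
    obtain ⟨y, hy, hc⟩ := (hB x).1 (Finset.mem_filter.1 hx).2
    obtain ⟨z, hz, hne, hcz, hall⟩ := h.deg y hc
    have h2 : ∑ w ∈ cl M.rot x, (if M.c w then (1 : ℚ) else 0) = 2 := by
      rw [← Finset.sum_filter]
      have h3 : (cl M.rot x).filter M.c = {y, z} := by
        ext w
        rw [Finset.mem_filter, mem_cl, Finset.mem_insert, Finset.mem_singleton]
        constructor
        · rintro ⟨h4, h5⟩
          exact hall w (hy.symm.trans h4) h5
        · rintro (h4 | h4)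
          · rw [h4]; exact ⟨hy, hc⟩
          · rw [h4]; exact ⟨hy.trans hz, hcz⟩
      rw [h3, Finset.sum_pair hne.symm]
      norm_num
    rw [h2, mul_comm]
  have hcB' : ∑ x ∈ Finset.univ.filter B, (if M.c x then (1 : ℚ) else 0) =
      ∑ x, (if M.c x then (1 : ℚ) else 0) := by
    refine Finset.sum_subset (Finset.subset_univ _) fun x _ hx => ?_
    rw [if_neg fun hc => hx (Finset.mem_filter.2 ⟨Finset.mem_univ _, hcB x hc⟩)]
  -- the two contours
  have htwo : 2 ≤ ∑ x ∈ Finset.univ.filter B, vv M.th x := by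
    have hsub : ∀ d, M.c d → cl M.th d ⊆ Finset.univ.filter B := fun d hd x hx => by
      rw [Finset.mem_filter]
      exact ⟨Finset.mem_univ _, (inv_same hBt (mem_cl.1 hx)).1 (hcB d hd)⟩
    have hdis : Disjoint (cl M.th e) (cl M.th (M.inv e)) := by
      rw [Finset.disjoint_left]
      intro x hx hx'
      exact h.ne ((mem_cl.1 hx).trans (mem_cl.1 hx').symm)
    have h3 : ∑ x ∈ cl M.th e ∪ cl M.th (M.inv e), vv M.th x = 2 := by
      rw [Finset.sum_union hdis, sum_vv, sum_vv]
      norm_num
    rw [← h3]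
    refine Finset.sum_le_sum_of_subset_of_nonneg ?_ fun x _ _ => (vv_pos _ _).le
    exact Finset.union_subset (hsub e h.he) (hsub _ ((M.c_inv e).2 h.he))
  have hsplit : ∀ f : D → ℚ, ∑ x, f x = ∑ x ∈ Finset.univ.filter B, f x +
      ∑ x ∈ Finset.univ.filter (fun x => ¬ B x), f x := fun f =>
    (Finset.sum_filter_add_sum_filter_not _ _ _).symm
  have h1 : ∑ x ∈ Finset.univ.filter (fun x => ¬ B x), vv M.th x =
      ∑ x ∈ Finset.univ.filter (fun x => ¬ B x), vv M.rot x :=
    Finset.sum_congr rfl fun x hx => hout x (Finset.mem_filter.1 hx).2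
  have hth := hsplit (vv M.th)
  have hrot := hsplit (vv M.rot)
  have hF : ∑ x, (if M.F x then (0 : ℚ) else 1 / 2) =
      (Nat.card D : ℚ) / 2 - (1 / 2) * ∑ x, (if M.c x then (1 : ℚ) else 0) := by
    have h4 : ∀ x ∈ (Finset.univ : Finset D), (if M.F x then (0 : ℚ) else 1 / 2) =
        1 / 2 - (1 / 2) * (if M.c x then (1 : ℚ) else 0) := by
      intro x _
      by_cases hx : M.F x
      · rw [if_pos hx, if_pos ((h.Fc x).1 hx)]
        norm_num
      · rw [if_neg hx, if_neg fun hc => hx ((h.Fc x).2 hc)]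
        norm_num
    rw [Finset.sum_congr rfl h4, Finset.sum_sub_distrib, ← Finset.mul_sum, Finset.sum_const,
      Finset.card_univ, nsmul_eq_mul, Nat.card_eq_fintype_card]
    ring
  have e1 : (cyc M.inv : ℚ) = Nat.card D / 2 := by
    rw [cyc_eq_vv, Finset.sum_congr rfl (fun x _ => vv_inv2 M.inv_inv M.inv_ne x),
      Finset.sum_const, Finset.card_univ, nsmul_eq_mul, Nat.card_eq_fintype_card]
    ring
  have e3 : ((cyc M.rot : ℚ) + cyc M.inv + cyc (M.rot * M.inv) - Nat.card D -
      2 * orb M.rot M.inv) = 0 := by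
    have h3 : (((cyc M.rot : ℤ) + cyc M.inv + cyc (M.rot * M.inv) - Nat.card D -
        2 * orb M.rot M.inv : ℤ) : ℚ) = 0 := by
      have h4 : (cyc M.rot : ℤ) + cyc M.inv + cyc (M.rot * M.inv) - Nat.card D -
        2 * orb M.rot M.inv = 0 := hpl
      rw [h4]
      rfl
    push_cast at h3
    exact h3
  have e4 : (cyc (M.rot * M.inv) : ℚ) = ∑ x, vv M.fc x := cyc_eq_vv _
  have e5 : (cyc M.rot : ℚ) = ∑ x, vv M.rot x := cyc_eq_vv _
  rw [Finset.sum_sub_distrib, Finset.sum_add_distrib, hF]
  rw [hcB'] at hdeg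
  rw [h1] at hth
  linarith

/-- components -/
private abbrev QC (M : CMap D) : Type _ := Quot (fun x y => M.rot x = y ∨ M.inv x = y)

omit [DecidableEq D] in
/-- the map from the orbits to the components -/
private def pr (M : CMap D) : Quot M.rel → QC M :=
  Quot.lift (fun x => Quot.mk _ x) fun _ _ h => Quot.eqvGen_sound (rel_r0 h)

omit [DecidableEq D] in
private theorem pr_eq {M : CMap D} {e : D} (h : OneCircle M e) (q1 q2 : Quot M.rel)
    (hq : pr M q1 = pr M q2) : q1 = q2 ∨
      ((q1 = Quot.mk _ e ∨ q1 = Quot.mk _ (M.inv e)) ∧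
        (q2 = Quot.mk _ e ∨ q2 = Quot.mk _ (M.inv e))) := by
  induction q1 using Quot.ind with
  | mk x =>
    induction q2 using Quot.ind with
    | mk y =>
      rcases r0_cases h (Quot.eqvGen_exact hq) with h1 | h1
      · exact Or.inl (Quot.eqvGen_sound h1)
      · right
        exact ⟨h1.1.imp (fun h => (Quot.eqvGen_sound h).symm) (fun h => (Quot.eqvGen_sound h).symm),
          h1.2.imp (fun h => (Quot.eqvGen_sound h).symm) (fun h => (Quot.eqvGen_sound h).symm)⟩

omit [DecidableEq D] in
private theorem card_le_succ {M : CMap D} {e : D} (h : OneCircle M e) :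
    Nat.card (Quot M.rel) ≤ Nat.card (QC M) + 1 := by
  classical
  rw [← Finite.card_option]
  refine Nat.card_le_card_of_injective
    (fun q => if q = Quot.mk _ (M.inv e) then none else some (pr M q)) ?_
  intro q1 q2 hq
  dsimp only at hq
  by_cases h1 : q1 = Quot.mk _ (M.inv e)
  · by_cases h2 : q2 = Quot.mk _ (M.inv e)
    · rw [h1, h2]
    · rw [if_pos h1, if_neg h2] at hq
      exact absurd hq (by simp)
  · by_cases h2 : q2 = Quot.mk _ (M.inv e)
    · rw [if_neg h1, if_pos h2] at hq
      exact absurd hq (by simp)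
    · rw [if_neg h1, if_neg h2] at hq
      rcases pr_eq h q1 q2 (Option.some.inj hq) with h3 | h3
      · exact h3
      · rw [h3.1.resolve_right h1, h3.2.resolve_right h2]

omit [DecidableEq D] in
private theorem card_le {M : CMap D} {e : D} (h : OneCircle M e)
    (he : EqvGen M.rel e (M.inv e)) :
    Nat.card (Quot M.rel) ≤ Nat.card (QC M) := by
  refine Nat.card_le_card_of_injective (pr M) fun q1 q2 hq => ?_
  have h0 : (Quot.mk M.rel e) = Quot.mk M.rel (M.inv e) := Quot.eqvGen_sound he
  rcases pr_eq h q1 q2 hq with h3 | h3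
  · exact h3
  · have h1 : q1 = Quot.mk M.rel e := h3.1.elim id fun h => h.trans h0.symm
    have h2 : q2 = Quot.mk M.rel e := h3.2.elim id fun h => h.trans h0.symm
    rw [h1, h2]

omit [DecidableEq D] in
open Classical in
private theorem sum_orb (M : CMap D) [Fintype (Quot M.rel)] :
    ∑ x, (vv M.th x + vv M.fc x - (if M.F x then 0 else 1 / 2)) =
    ∑ q : Quot M.rel, ∑ x ∈ Finset.univ.filter (fun x => Quot.mk M.rel x = q),
      (vv M.th x + vv M.fc x - (if M.F x then 0 else 1 / 2)) :=
  (Finset.sum_fiberwise_of_maps_to (s := Finset.univ) (t := Finset.univ)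
    (g := fun x => Quot.mk M.rel x) (fun _ _ => Finset.mem_univ _) _).symm

theorem OneCircle.sep {M : CMap D} {e : D} (h : OneCircle M e) (hpl : defect M.rot M.inv = 0) :
    ¬ EqvGen M.rel e (M.inv e) := by
  classical
  intro he
  have : Fintype (Quot M.rel) := Fintype.ofFinite _
  have h1 := total h hpl
  have h2 := card_le h he
  rw [sum_orb M] at h1
  have h3 := Finset.sum_le_sum fun (q : Quot M.rel) (_ : q ∈ Finset.univ) => M.euler_orbit q
  rw [Finset.sum_const, Finset.card_univ, nsmul_eq_mul, ← Nat.card_eq_fintype_card] at h3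
  have h4 : (Nat.card (Quot M.rel) : ℚ) ≤ (orb M.rot M.inv : ℚ) := by
    exact_mod_cast h2
  linarith

open Classical in
theorem OneCircle.euler {M : CMap D} {e : D} (h : OneCircle M e)
    (hpl : defect M.rot M.inv = 0) (d : D) :
    2 ≤ ∑ x ∈ Finset.univ.filter (fun x => EqvGen M.rel d x),
      (vv M.th x + vv M.fc x - (if M.F x then 0 else 1 / 2)) := by
  have : Fintype (Quot M.rel) := Fintype.ofFinite _
  have hf : Finset.univ.filter (fun x => EqvGen M.rel d x) =
      Finset.univ.filter (fun x => Quot.mk M.rel x = Quot.mk M.rel d) := by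
    ext x
    rw [Finset.mem_filter, Finset.mem_filter]
    exact and_congr_right fun _ => ⟨fun h => (Quot.eqvGen_sound h).symm,
      fun h => (Quot.eqvGen_exact h).symm⟩
  rw [hf]
  by_contra hlt
  push Not at hlt
  have h1 := total h hpl
  have h2 := card_le_succ h
  rw [sum_orb M] at h1
  have h3 := Finset.sum_lt_sum (fun (q : Quot M.rel) (_ : q ∈ Finset.univ) => M.euler_orbit q)
    ⟨Quot.mk M.rel d, Finset.mem_univ _, hlt⟩
  rw [Finset.sum_const, Finset.card_univ, nsmul_eq_mul, ← Nat.card_eq_fintype_card] at h3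
  have h4 : (Nat.card (Quot M.rel) : ℚ) ≤ (orb M.rot M.inv : ℚ) + 1 := by
    exact_mod_cast h2
  linarith

end Pool.Agent.Lib.MP_5854e1_co.K7S
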